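import Pool.Agent.Helper86.LH.Defs

/-!
Project LK (MP_f0457e_nt, part 3): additive places not above 6 in Lang's inequality.

Abstract Kummer data: a group `G` with coordinates `(X P : Z P)` on the x-line of the curve
`y² = x³ + A x + B`, `v` a nonarchimedean absolute value with `v 2 = v 3 = 1`, values in the powers
of `w = v π < 1`, the equation minimal and additive: `v A ≤ w`, `v B ≤ w`, and not
(`v A ≤ w⁴` and `v B ≤ w⁶`).  `E0 P` : the point has nonsingular reduction, `v (Z P) ≤ v (X P)`.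
THEOREM: `E0 (12 P)` for all `P`.
-/

namespace Pool.Agent.Helper86.LK

structure Kum {G K : Type*} [AddCommGroup G] [Field K] (A B : K) (X Z : G → K) : Prop where
  ne : ∀ P, X P ≠ 0 ∨ Z P ≠ 0
  zero : Z 0 = 0
  eqn : ∀ P, Z P ≠ 0 → ∃ y : K, y ^ 2 = (X P / Z P) ^ 3 + A * (X P / Z P) + B
  law : ∀ P Q, ∃ c : K, c ≠ 0 ∧
    (X P * X Q - A * (Z P * Z Q)) ^ 2 - 4 * B * (X P * Z Q + Z P * X Q) * (Z P * Z Q) =
      c * (X (P + Q) * X (P - Q)) ∧
    2 * (X P * Z Q + Z P * X Q) * (X P * X Q + A * (Z P * Z Q)) + 4 * B * (Z P * Z Q) ^ 2 =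
      c * (X (P + Q) * Z (P - Q) + Z (P + Q) * X (P - Q)) ∧
    (X P * Z Q - Z P * X Q) ^ 2 = c * (Z (P + Q) * Z (P - Q))

/-- Nonsingular reduction (cusp at `x = 0`). -/
def E0 {G K : Type*} [Field K] (v : AbsoluteValue K ℝ) (X Z : G → K) (P : G) : Prop :=
  v (Z P) ≤ v (X P)

/-- Discrete absolute value with `v 2 = v 3 = 1` and largest value `w < 1`. -/
structure Disc {K : Type*} [Field K] (v : AbsoluteValue K ℝ) (w : ℝ) : Prop where
  na : IsNonarchimedean v
  two : v 2 = 1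
  three : v 3 = 1
  w0 : 0 < w
  w1 : w < 1
  pow : ∀ x : K, x ≠ 0 → ∃ k : ℤ, v x = w ^ k

end Pool.Agent.Helper86.LK
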