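import Pool.Agent.Helper86.LK.Sum

/-!
The theorem for number fields with the additive part.
-/

open Height AdmissibleAbsValues Filter Topology

namespace Pool.Agent.Helper86.LK

open WeierstrassCurve WeierstrassCurve.Affine WeierstrassCurve.Affine.Point NumberField
open Pool.Agent.Helper86.LH

section base

variable {K : Type*} [Field K] {W : WeierstrassCurve.Affine K} [W.IsElliptic]

theorem loc_base (v : AbsoluteValue K ℝ) (x : K) :
    1 / 6 * Real.log (v W.Δ) + 1 / 6 * Real.posLog (v W.j) ≤ loc W v x 1 := by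
  classical
  have hΔ : W.Δ ≠ 0 := W.isUnit_Δ.ne_zero
  unfold loc
  split_ifs with hm
  · rw [← nj_eq_posLog hm, log_lv hΔ hm]
    exact locM_ge hm x
  · rw [posLog_of_not hm, mul_zero, add_zero]
    exact locA_ge hΔ v x

end base

variable {K : Type*} [Field K] [NumberField K] [DecidableEq K]
  (W : WeierstrassCurve.Affine K) [W.IsElliptic]

open Classical in
/-- Additive part at a finite place (0 above 6). -/
noncomputable def ga (v : AbsoluteValue K ℝ) : ℝ := if v 6 = 1 then gn W v else 0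

omit [NumberField K] [DecidableEq K] in
theorem ga_nonneg (v : AbsoluteValue K ℝ) : 0 ≤ ga W v := by
  unfold ga
  split_ifs
  · exact le_max_left _ _
  · exact le_rfl

omit [DecidableEq K] in
theorem ga_out {S : Finset (NV K)} (hS : Big W S) {v : NV K} (hv : v ∉ S) : ga W v.val = 0 := by
  unfold ga
  split_ifs with h6
  swap
  · rfl
  have hΔ : W.Δ ≠ 0 := W.isUnit_Δ.ne_zero
  have h60 : (6 : K) ≠ 0 := by norm_num
  have hna := isNonarchimedean v.val v.2
  have vΔ := hS.disc v hv
  have vc4 := hS.c4 v hv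
  have hn : ∀ n : ℕ, v.val (n : K) ≤ 1 := fun n => IsNonarchimedean.apply_natCast_le_one hna
  have n2 : v.val (2 : K) ≤ 1 := by simpa using hn 2
  have n3 : v.val (3 : K) ≤ 1 := by simpa using hn 3
  have h23 : v.val (2 : K) * v.val (3 : K) = 1 := by
    rw [← map_mul, ← h6]; norm_num
  have v2 : v.val (2 : K) = 1 := by
    apply le_antisymm n2
    have := mul_le_mul_of_nonneg_left n3 (v.val.nonneg 2)
    linarith
  have v3 : v.val (3 : K) = 1 := by
    rw [v2, one_mul] at h23
    exact h23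
  have v48 : v.val 48 = 1 := by
    rw [show (48 : K) = 2 * 2 * 2 * 2 * 3 by norm_num, map_mul, map_mul, map_mul, map_mul, v2, v3]
    norm_num
  have v864 : v.val 864 = 1 := by
    rw [show (864 : K) = 2 * 2 * 2 * 2 * 2 * 3 * 3 * 3 by norm_num]
    simp only [map_mul, v2, v3]
    norm_num
  have v1728 : v.val 1728 ≤ 1 := by simpa using hn 1728
  have vc6 : v.val W.c₆ ≤ 1 := by
    have e1 : W.c₆ ^ 2 = W.c₄ ^ 3 + -(1728 * W.Δ) := by
      have := W.c_relation
      linear_combination this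
    have e2 : v.val (W.c₆ ^ 2) ≤ 1 := by
      rw [e1]
      refine (hna _ _).trans (max_le ?_ ?_)
      · rw [map_pow]; exact pow_le_one₀ (v.val.nonneg _) vc4
      · rw [map_neg_eq_map, map_mul, vΔ, mul_one]; exact v1728
    rw [map_pow] at e2
    by_contra hc
    rw [not_le] at hc
    have := one_lt_pow₀ hc (n := 2) (by norm_num)
    linarith
  obtain ⟨C, c1, c2, c3, c4, c6, cΔ⟩ := exists_model h60 W v.val (1 : Kˣ)
    (by rw [map_div₀, map_neg_eq_map, v48, div_one, Units.val_one, map_one, one_pow]; exact vc4)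
    (by rw [map_div₀, map_neg_eq_map, v864, div_one, Units.val_one, map_one, one_pow]; exact vc6)
  have ht : (1 : ℝ) ∈ discSet v.val W := by
    refine ⟨C, ⟨c1, c2, c3, c4, c6⟩, ?_⟩
    rw [cΔ, vΔ, Units.val_one, map_one, one_pow, div_one]
  have h1 := logMinDisc_le hna ht one_pos
  rw [Real.log_one, _root_.neg_zero] at h1
  have h2 : 0 ≤ Real.posLog (v.val W.j) := Real.posLog_nonneg
  unfold gn
  exact max_eq_left (by linarith)

/-- The inequality for the multiples of `12 P`. -/
theorem mult_ineq2 {S : Finset (NV K)} (hS : Big W S) (P : W.Point)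
    (hP : ∀ n : ℕ, 0 < n → n • P ≠ 0) {H : W.Point → ℝ}
    (hH : ∀ P : W.Point, Tendsto (fun k : ℕ => logHeight ((2 ^ k • P).xRep) / 4 ^ k)
        atTop (𝓝 (H P))) (hHm : ∀ (P : W.Point) (m : ℕ), H (m • P) = m ^ 2 * H P)
    {M : ℕ} {m : ℕ} (hm : m ∈ Finset.Icc 1 M) :
    ∑ x ∈ (Finset.univ : Finset (InfinitePlace K)).disjSum S, TT W x * B2 (m * (12 * TH W P x)) +
      1 / 6 * ∑ v ∈ S, ga W v.val - 135 * 4 ^ (12 * M) * totalWeight K ≤
      (m : ℝ) ^ 2 * (144 * H P) := by
  classical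
  have hm1 := (Finset.mem_Icc.mp hm).1
  have hmM := (Finset.mem_Icc.mp hm).2
  have hm12 : 0 < 12 * m := by omega
  have h6 : (6 : K) ≠ 0 := by norm_num
  have e12 : (12 * m) • P = 12 • (m • P) := by rw [mul_comm, mul_nsmul]
  have hne : (12 * m) • P ≠ 0 := hP _ hm12
  have h1 := aheight_lower2 h6 arch_two_three hS ((12 * m) • P) hne
    (hH ((12 * m) • P)) (fun v => ga W v.val) (fun v hv => by
      have hx1 : ((12 * m) • P).xRep 1 = 1 := by
        generalize (12 * m) • P = Q at hne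
        match Q, hne with
        | Point.some x y hxy, _ => rfl
        | 0, hP => exact absurd rfl hP
      unfold ga
      split_ifs with hv6
      · obtain ⟨p, hp, d⟩ := fin_disc (⟨v.val, v.2⟩ : FinitePlace K) hv6
        have := gain d hp rfl (m • P) (by rw [← e12]; exact hne)
        rw [← e12] at this
        exact this
      · rw [mul_zero, add_zero, hx1]
        exact loc_base v.val _)
  rw [hHm P (12 * m)] at h1
  have hL : Real.log (10 ^ 30) ≤ 70 := by
    have := log_ten_lt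
    rw [Real.log_pow]
    push_cast
    linarith
  have hL0 : 0 ≤ Real.log (10 ^ 30) := Real.log_nonneg (by norm_num)
  have hB : ∀ t : ℝ, ((12 * m : ℕ) : ℝ) * t = m * (12 * t) := by
    intro t; push_cast; ring
  have h2 : asum K (fun v => (if IsAM W v then nj W v else 0) * B2 (m * (12 * tv W v P)) -
      4 ^ (12 * M) * 70) ≤ asum K (fun v => if IsAM W v then
        nj W v * (1 / 6 - tv W v ((12 * m) • P) * (1 - tv W v ((12 * m) • P))) else 0) := by
    apply asum_le
    intro v hv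
    have h23 := arch_two_three v hv
    have h4 : (4 : ℝ) ^ (12 * m) ≤ 4 ^ (12 * M) :=
      pow_le_pow_right₀ (by norm_num) (Nat.mul_le_mul_left 12 hmM)
    have h4' : (0 : ℝ) < 4 ^ (12 * M) := by positivity
    split_ifs with hmv
    · have h3 := tv_amul_B2 h23.1 h23.2 hmv P (12 * m)
      rw [hB] at h3
      have h5 : (4 : ℝ) ^ (12 * m) * Real.log (10 ^ 30) ≤ 4 ^ (12 * M) * 70 :=
        mul_le_mul h4 hL hL0 h4'.le
      exact le_trans (sub_le_sub_left h5 _) h3
    · rw [zero_mul]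
      linarith
  rw [asum_sub, asum_const] at h2
  have h3 : ∑ x ∈ (Finset.univ : Finset (InfinitePlace K)).disjSum S,
      TT W x * B2 (m * (12 * TH W P x)) =
      asum K (fun v => (if IsAM W v then nj W v else 0) * B2 (m * (12 * tv W v P))) +
      ∑ v ∈ S, (if IsMul W v.val then nj W v.val *
        (1 / 6 - tv W v.val ((12 * m) • P) * (1 - tv W v.val ((12 * m) • P))) else 0) := by
    rw [Finset.sum_disjSum, asum_eq]
    congr 1
    · apply Finset.sum_congr rfl
      intro v _
      unfold TT TH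
      dsimp only
      rw [mul_assoc]
    · apply Finset.sum_congr rfl
      intro v _
      unfold TT TH
      dsimp only
      split_ifs with hmv
      · rw [tv_mul (isNonarchimedean v.val v.2) hmv P (12 * m), hB, dn_B2]
      · ring
  have h4 : (1 : ℝ) ≤ 4 ^ (12 * M) := one_le_pow₀ (by norm_num)
  have h5 : (0 : ℝ) ≤ totalWeight K := Nat.cast_nonneg _
  have h6' : 65 * (totalWeight K : ℝ) ≤ 65 * (4 ^ (12 * M) * totalWeight K) := by nlinarith
  have h7 : ((12 * m : ℕ) : ℝ) ^ 2 * H P = (m : ℝ) ^ 2 * (144 * H P) := by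
    push_cast; ring
  rw [h7] at h1
  rw [h3]
  have h8 : (totalWeight K : ℝ) * (4 ^ (12 * M) * 70) = 70 * (4 ^ (12 * M) * totalWeight K) := by
    ring
  rw [h8] at h2
  have h9 : 135 * (4 : ℝ) ^ (12 * M) * totalWeight K =
      65 * (4 ^ (12 * M) * totalWeight K) + 70 * (4 ^ (12 * M) * totalWeight K) := by ring
  rw [h9]
  linarith

/-- The additive part of the height. -/
noncomputable def addH : ℝ := ∑ᶠ v : NV K, ga W v.val

omit [DecidableEq K] in
theorem addH_eq {S : Finset (NV K)} (hS : Big W S) : addH W = ∑ v ∈ S, ga W v.val := by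
  unfold addH
  apply finsum_eq_sum_of_support_subset
  intro v hv
  by_contra hc
  apply hv
  exact ga_out W hS (fun h => hc (Finset.mem_coe.mpr h))

/-- The three cases. -/
theorem all_main2 {δ : ℝ} (hδ0 : 0 < δ) (hδ1 : δ ≤ 1) {S : Finset (NV K)} (hS : Big W S)
    (P : W.Point) (hP : ∀ n : ℕ, 0 < n → n • P ≠ 0) {H : W.Point → ℝ}
    (hH : ∀ P : W.Point, Tendsto (fun k : ℕ => logHeight ((2 ^ k • P).xRep) / 4 ^ k)
        atTop (𝓝 (H P))) (hHm : ∀ (P : W.Point) (m : ℕ), H (m • P) = m ^ 2 * H P)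
    (hH0 : ∀ P : W.Point, 0 ≤ H P)
    (hw : (∃ x ∈ (Finset.univ : Finset (InfinitePlace K)).disjSum S,
        δ * logHeight₁ W.j ≤ TT W x) ∨ δ * logHeight₁ W.j ≤ 94 ∨
        δ * logHeight₁ W.j ≤ addH W) :
    δ ^ 3 * (logHeight₁ W.j + addH W) / 450000 - 150 * (4 : ℝ) ^ (180 / δ) * totalWeight K ≤
      H P := by
  classical
  obtain ⟨M, hM, hM1, hM2⟩ := exists_M hδ0 hδ1
  have hT := TT_sum W hS
  have h5 : (0 : ℝ) ≤ totalWeight K := Nat.cast_nonneg _
  have h5' : (1 : ℝ) ≤ totalWeight K := by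
    exact_mod_cast NumberField.totalWeight_pos K
  have h4M : (4 : ℝ) ^ (12 * M) ≤ (4 : ℝ) ^ (180 / δ) := by
    rw [← Real.rpow_natCast]
    apply Real.rpow_le_rpow_of_exponent_le (by norm_num)
    push_cast
    have : 180 / δ = 12 * (15 / δ) := by ring
    rw [this]
    linarith
  set T := ∑ x ∈ (Finset.univ : Finset (InfinitePlace K)).disjSum S, TT W x with hTdef
  set E := 135 * (4 : ℝ) ^ (12 * M) * totalWeight K with hE
  set G := addH W with hG
  have hGS : G = ∑ v ∈ S, ga W v.val := addH_eq W hS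
  have hG0 : 0 ≤ G := by
    rw [hGS]
    exact Finset.sum_nonneg fun v _ => ga_nonneg W v.val
  have hE0 : 0 ≤ E := by positivity
  have hT0 : 0 ≤ T := Finset.sum_nonneg fun y _ => TT_nonneg W y
  have hH144 : 0 ≤ 144 * H P := by have := hH0 P; linarith
  have hineq : ∀ m ∈ Finset.Icc 1 M,
      ∑ x ∈ (Finset.univ : Finset (InfinitePlace K)).disjSum S,
        TT W x * B2 (m * (12 * TH W P x)) + 1 / 6 * G - E ≤ (m : ℝ) ^ 2 * (144 * H P) := by
    intro m hm
    have := mult_ineq2 W hS P hP hH hHm hm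
    rw [← hGS] at this
    exact this
  have key : ∀ I ⊆ (Finset.univ : Finset (InfinitePlace K)).disjSum S, ∀ ψ : ℝ,
      (∀ v ∈ I, 12 * TH W P v = ψ) →
      M / (2 * Real.pi ^ 2) * ∑ v ∈ I, TT W v - 1 / 3 * T + (M - 2) * (1 / 6 * G) -
        2 * M * E ≤ 144 * H P * (M : ℝ) ^ 3 / 3 := fun I hI ψ hψ =>
    weighted2 ((Finset.univ : Finset (InfinitePlace K)).disjSum S) (TT W)
      (fun x => 12 * TH W P x) (fun y _ => TT_nonneg W y) I hI ψ hψ (144 * H P) E (1 / 6 * G)
      hH144 hE0 (by positivity) M hM hineq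
  have key0 : -(1 / 3 * T) + (M - 2) * (1 / 6 * G) - 2 * M * E ≤
      144 * H P * (M : ℝ) ^ 3 / 3 := by
    have := key ∅ (Finset.empty_subset _) 0 (fun v hv => absurd hv (Finset.notMem_empty v))
    rw [Finset.sum_empty, mul_zero, zero_sub] at this
    exact this
  have hδT : δ * T ≤ δ * logHeight₁ W.j := mul_le_mul_of_nonneg_left hT.2 hδ0.le
  have fin : δ ^ 3 * (T + G) / 450000 - (E + 5) ≤ H P := by
    rcases hw with ⟨x, hx, hw⟩ | hw | hw
    · have k1 := key {x} (Finset.singleton_subset_iff.mpr hx) (12 * TH W P x)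
        (fun y hy => by rw [Finset.mem_singleton.mp hy])
      rw [Finset.sum_singleton] at k1
      have := opt_place hδ0 hδ1 hT0 (hδT.trans hw) hE0 hG0 hM1 hM2 k1
      linarith
    · exact opt_small hδ0 hδ1 hT0 (hδT.trans hw) hE0 hG0 hM1 hM2 key0
    · have := opt_add hδ0 hδ1 hT0 (hδT.trans hw) hE0 hG0 hM1 hM2 key0
      linarith
  have hd3 : δ ^ 3 ≤ 1 := pow_le_one₀ hδ0.le hδ1
  have hd3' : 0 < δ ^ 3 := by positivity
  have a1 : δ ^ 3 * (logHeight₁ W.j + G) ≤ δ ^ 3 * (T + G) + 47 * totalWeight K := by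
    have b1 : logHeight₁ W.j + G ≤ (T + G) + 47 * totalWeight K := by linarith [hT.1]
    have b2 := mul_le_mul_of_nonneg_left b1 hd3'.le
    have b3 : δ ^ 3 * (47 * (totalWeight K : ℝ)) ≤ 1 * (47 * totalWeight K) :=
      mul_le_mul_of_nonneg_right hd3 (by positivity)
    linarith
  have a3 : E ≤ 135 * ((4 : ℝ) ^ (180 / δ) * totalWeight K) := by
    rw [hE, mul_assoc]
    apply mul_le_mul_of_nonneg_left _ (by norm_num)
    exact mul_le_mul_of_nonneg_right h4M h5
  have a4 : (1 : ℝ) ≤ (4 : ℝ) ^ (180 / δ) := by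
    apply Real.one_le_rpow (by norm_num)
    positivity
  have a5 : (totalWeight K : ℝ) ≤ (4 : ℝ) ^ (180 / δ) * totalWeight K := by nlinarith
  have a6 : 150 * (4 : ℝ) ^ (180 / δ) * totalWeight K =
      150 * ((4 : ℝ) ^ (180 / δ) * totalWeight K) := by ring
  rw [a6]
  linarith

end Pool.Agent.Helper86.LK
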