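import Pool.Agent.Helper86.LK.KA

/-!
case_4b (`v A ≤ w³`, `v B = w⁴`), case_4c (`v A = w³`, `v B ≤ w⁵`), case_4d (`v A ≤ w⁴`, `v B = w⁵`).

PROOF.  `P` not in `E0`, `x = X P / Z P`, `v x ≤ w`, `f = x³ + A x + B = y²`.  In all three cases
`v x = w` would give `v f = w³`, impossible (odd), so `v x ≤ w²`.
4b: `v f = w⁴`, `v num ≤ w⁶` (`(3x²+A)² ≤ w⁶`, `8 x f ≤ w⁶`), so `v (x(2P)) ≤ w²`;
`v (4B + 2(x+x2)(x x2+A)) = w⁴` (the other term `≤ w⁵`), `v (x-x2)² ≤ w⁴`: `E0_three`.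
4c: `v f ≤ w⁵`, so `≤ w⁶`; `v ((3x²+A)²) = w⁶`, `v (8 x f) ≤ w⁸`: `E0 (2P)`.
4d: `v f = w⁵`, impossible.
-/

namespace Pool.Agent.Helper86.LK

variable {G K : Type*} [AddCommGroup G] [Field K] {A B : K} {X Z : G → K}
  {v : AbsoluteValue K ℝ} {w : ℝ}

theorem KD_pow (d : Disc v w) {x : K} (n : ℕ) (hx : v x < w ^ n) : v x ≤ w ^ (n + 1) := by
  have h := pow_le d (x := x) (n := (n : ℤ)) (by rwa [zpow_natCast])
  rwa [← Nat.cast_succ, zpow_natCast] at h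

theorem KD_odd (d : Disc v w) {y : K} (n : ℕ) (hy : v (y ^ 2) = w ^ (2 * n + 1)) : False := by
  refine sq_odd d (y := y) (n := (n : ℤ)) ?_
  rw [hy, show (2 * (n : ℤ) + 1) = ((2 * n + 1 : ℕ) : ℤ) by push_cast; ring, zpow_natCast]

theorem KD_add (d : Disc v w) {a b : K} {r : ℝ} (ha : v a ≤ r) (hb : v b ≤ r) : v (a + b) ≤ r :=
  (d.na a b).trans (max_le ha hb)

theorem KD_sub (d : Disc v w) {a b : K} {r : ℝ} (ha : v a ≤ r) (hb : v b ≤ r) :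
    v (a - b) ≤ r := by
  rw [sub_eq_add_neg]
  exact KD_add d ha (by rwa [v.map_neg])

theorem KD_eq (d : Disc v w) {a b : K} (h : v a < v b) : v (a + b) = v b :=
  IsNonarchimedean.add_eq_right_of_lt d.na h

theorem KD_mul {a b : K} {m n : ℕ} (d : Disc v w) (ha : v a ≤ w ^ m) (hb : v b ≤ w ^ n) :
    v (a * b) ≤ w ^ (m + n) := by
  rw [map_mul, pow_add]
  exact mul_le_mul ha hb (v.nonneg _) (pow_nonneg d.w0.le _)

theorem KD_nat (d : Disc v w) (n : ℕ) {a : K} {r : ℝ} (ha : v a ≤ r) :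
    v ((n : K) * a) ≤ r := by
  rw [map_mul]
  have h1 : v (n : K) ≤ 1 := IsNonarchimedean.apply_natCast_le_one d.na
  calc v (n : K) * v a ≤ 1 * v a := mul_le_mul_of_nonneg_right h1 (v.nonneg _)
    _ = v a := one_mul _
    _ ≤ r := ha

theorem KD_four (d : Disc v w) (a : K) : v (4 * a) = v a := by
  rw [show (4 : K) = 2 * 2 by norm_num, map_mul, map_mul, d.two, one_mul, one_mul]

theorem KD_two (d : Disc v w) : (2 : K) ≠ 0 := by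
  intro h0
  have h1 := d.two
  rw [h0, map_zero] at h1
  exact zero_ne_one h1

theorem KD_x (h : Kum A B X Z) (d : Disc v w) (hA : v A ≤ w ^ 3) (hB : v B ≤ w ^ 4) {P : G}
    (hP : ¬ E0 v X Z P) : v (X P / Z P) ≤ w ^ 2 := by
  obtain ⟨hZ, hx⟩ := not_E0 h hP
  obtain ⟨y, hy⟩ := h.eqn P hZ
  obtain ⟨x, hxd⟩ : ∃ x, x = X P / Z P := ⟨_, rfl⟩
  rw [← hxd] at hx hy ⊢
  have h1 : v x ≤ w ^ 1 := KD_pow d 0 (by rwa [pow_zero])
  rcases h1.lt_or_eq with h2 | h2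
  · exact KD_pow d 1 h2
  · exfalso
    refine KD_odd d (y := y) 1 ?_
    have h3 : v (x ^ 3) = w ^ 3 := by rw [map_pow, h2, pow_one]
    have h4 : v (A * x + B) ≤ w ^ 4 := KD_add d (KD_mul (m := 3) (n := 1) d hA h1) hB
    have h5 : w ^ 4 < w ^ 3 := pow_lt_pow_right_of_lt_one₀ d.w0 d.w1 (by norm_num)
    rw [hy, show x ^ 3 + A * x + B = (A * x + B) + x ^ 3 by ring, KD_eq d (by rw [h3]; linarith), h3]

theorem case_4b (h : Kum A B X Z) (d : Disc v w) (hA : v A ≤ w ^ 3) (hB : v B = w ^ 4) (P : G)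
    (hP : ¬ E0 v X Z P) : E0 v X Z (3 • P) := by
  have hB' : v B ≤ w ^ 4 := hB.le
  have hx2 := KD_x h d hA hB' hP
  obtain ⟨hZ, hx⟩ := not_E0 h hP
  obtain ⟨x, hxd⟩ : ∃ x, x = X P / Z P := ⟨_, rfl⟩
  rw [← hxd] at hx hx2
  have w65 : w ^ 5 < w ^ 4 := pow_lt_pow_right_of_lt_one₀ d.w0 d.w1 (by norm_num)
  have w6 : w ^ 6 ≤ w ^ 5 := pow_le_pow_of_le_one d.w0.le d.w1.le (by norm_num)
  have w4 : w ^ 4 ≤ w ^ 3 := pow_le_pow_of_le_one d.w0.le d.w1.le (by norm_num)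
  have w40 : 0 < w ^ 4 := pow_pos d.w0 4
  -- the size of `f`
  obtain ⟨f, hf⟩ : ∃ f, f = x ^ 3 + A * x + B := ⟨_, rfl⟩
  have hfv : v f = w ^ 4 := by
    have h1 : v (x ^ 3 + A * x) ≤ w ^ 5 := by
      refine KD_add d ?_ (KD_mul (m := 3) (n := 2) d hA hx2)
      rw [map_pow]
      calc v x ^ 3 ≤ (w ^ 2) ^ 3 := pow_le_pow_left₀ (v.nonneg _) hx2 3
        _ = w ^ 6 := by ring
        _ ≤ w ^ 5 := w6
    rw [hf, KD_eq d (by rw [hB]; linarith), hB]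
  have hf0 : f ≠ 0 := by
    intro h0
    rw [h0, map_zero] at hfv
    linarith
  obtain ⟨num, hnum⟩ : ∃ num, num = (3 * x ^ 2 + A) ^ 2 - 8 * x * f := ⟨_, rfl⟩
  have hnv : v num ≤ w ^ 6 := by
    rw [hnum]
    refine KD_sub d ?_ ?_
    · have h1 : v (3 * x ^ 2 + A) ≤ w ^ 3 := by
        refine KD_add d ?_ hA
        have h2 := KD_nat d 3 (KD_mul (m := 2) (n := 2) d hx2 hx2)
        push_cast at h2
        rw [← pow_two] at h2
        exact h2.trans w4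
      have h2 := KD_mul (m := 3) (n := 3) d h1 h1
      rwa [← pow_two] at h2
    · have h1 := KD_nat d 8 (KD_mul (m := 2) (n := 4) d hx2 hfv.le)
      push_cast at h1
      rwa [← mul_assoc] at h1
  have hne : (X P / Z P) ^ 3 + A * (X P / Z P) + B ≠ 0 := by rw [← hxd, ← hf]; exact hf0
  obtain ⟨hZ2, hx2eq⟩ : Z (2 • P) ≠ 0 ∧
      X (2 • P) / Z (2 • P) = ((3 * (X P / Z P) ^ 2 + A) ^ 2 -
        8 * (X P / Z P) * ((X P / Z P) ^ 3 + A * (X P / Z P) + B)) /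
      (4 * ((X P / Z P) ^ 3 + A * (X P / Z P) + B)) := by
    first
      | exact x_two h (KD_two d) P hZ hne
      | exact x_two h P hZ hne
  rw [← hxd, ← hf, ← hnum] at hx2eq
  obtain ⟨x2, hx2d⟩ : ∃ x2, x2 = X (2 • P) / Z (2 • P) := ⟨_, rfl⟩
  have hx2v : v x2 ≤ w ^ 2 := by
    rw [hx2d, hx2eq, map_div₀, KD_four d, hfv, div_le_iff₀ w40]
    calc v num ≤ w ^ 6 := hnv
      _ = w ^ 2 * w ^ 4 := by ring
  refine E0_three h d.na P hZ hZ2 (by rw [← hxd]; exact hx) ?_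
  rw [← hxd, ← hx2d]
  have h1 : v (2 * (x + x2) * (x * x2 + A)) ≤ w ^ 5 := by
    have h2 : v (x + x2) ≤ w ^ 2 := KD_add d hx2 hx2v
    have h3 : v (x * x2 + A) ≤ w ^ 3 :=
      KD_add d ((KD_mul (m := 2) (n := 2) d hx2 hx2v).trans w4) hA
    have h4 := KD_nat d 2 (KD_mul (m := 2) (n := 3) d h2 h3)
    push_cast at h4
    rwa [← mul_assoc] at h4
  have h2 : v (4 * B) = w ^ 4 := by rw [KD_four d, hB]
  rw [KD_eq d (by rw [h2]; linarith), h2]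
  calc v (x - x2) ^ 2 ≤ (w ^ 2) ^ 2 := pow_le_pow_left₀ (v.nonneg _) (KD_sub d hx2 hx2v) 2
    _ = w ^ 4 := by ring

theorem case_4c (h : Kum A B X Z) (d : Disc v w) (hA : v A = w ^ 3) (hB : v B ≤ w ^ 5) (P : G)
    (hP : ¬ E0 v X Z P) : E0 v X Z (2 • P) := by
  have w5 : w ^ 5 ≤ w ^ 4 := pow_le_pow_of_le_one d.w0.le d.w1.le (by norm_num)
  have w6 : w ^ 6 ≤ w ^ 5 := pow_le_pow_of_le_one d.w0.le d.w1.le (by norm_num)
  have w43 : w ^ 4 < w ^ 3 := pow_lt_pow_right_of_lt_one₀ d.w0 d.w1 (by norm_num)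
  have w86 : w ^ 8 < w ^ 6 := pow_lt_pow_right_of_lt_one₀ d.w0 d.w1 (by norm_num)
  have hx2 := KD_x h d hA.le (hB.trans w5) hP
  obtain ⟨hZ, hx⟩ := not_E0 h hP
  obtain ⟨y, hy⟩ := h.eqn P hZ
  obtain ⟨x, hxd⟩ : ∃ x, x = X P / Z P := ⟨_, rfl⟩
  obtain ⟨f, hf⟩ : ∃ f, f = x ^ 3 + A * x + B := ⟨_, rfl⟩
  rw [← hxd] at hx hx2 hy
  rw [← hf] at hy
  have h1 : v f ≤ w ^ 5 := by
    rw [hf]
    refine KD_add d (KD_add d ?_ (KD_mul (m := 3) (n := 2) d hA.le hx2)) hB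
    rw [map_pow]
    calc v x ^ 3 ≤ (w ^ 2) ^ 3 := pow_le_pow_left₀ (v.nonneg _) hx2 3
      _ = w ^ 6 := by ring
      _ ≤ w ^ 5 := w6
  have h2 : v f ≤ w ^ 6 := by
    rcases h1.lt_or_eq with h3 | h3
    · exact KD_pow d 5 h3
    · exfalso
      exact KD_odd d (y := y) 2 (by rw [hy, h3])
  rw [E0_two h P hZ, ← hxd, ← hf, KD_four d]
  have h3 : v (3 * x ^ 2 + A) = w ^ 3 := by
    have h4 := KD_nat d 3 (KD_mul (m := 2) (n := 2) d hx2 hx2)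
    push_cast at h4
    rw [← pow_two] at h4
    rw [KD_eq d (by rw [hA]; linarith), hA]
  have h4 : v ((3 * x ^ 2 + A) ^ 2) = w ^ 6 := by
    rw [map_pow, h3]; ring
  have h5 : v (-(8 * x * f)) ≤ w ^ 8 := by
    rw [v.map_neg]
    have h6 := KD_nat d 8 (KD_mul (m := 2) (n := 6) d hx2 h2)
    push_cast at h6
    rwa [← mul_assoc] at h6
  rw [sub_eq_add_neg, add_comm, KD_eq d (by rw [h4]; linarith), h4]
  exact h2

theorem case_4d (h : Kum A B X Z) (d : Disc v w) (hA : v A ≤ w ^ 4) (hB : v B = w ^ 5) (P : G) :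
    E0 v X Z P := by
  by_contra hP
  have w5 : w ^ 5 ≤ w ^ 4 := pow_le_pow_of_le_one d.w0.le d.w1.le (by norm_num)
  have w65 : w ^ 6 < w ^ 5 := pow_lt_pow_right_of_lt_one₀ d.w0 d.w1 (by norm_num)
  have w43 : w ^ 4 ≤ w ^ 3 := pow_le_pow_of_le_one d.w0.le d.w1.le (by norm_num)
  have hx2 := KD_x h d (hA.trans w43) (hB.le.trans w5) hP
  obtain ⟨hZ, hx⟩ := not_E0 h hP
  obtain ⟨y, hy⟩ := h.eqn P hZ
  obtain ⟨x, hxd⟩ : ∃ x, x = X P / Z P := ⟨_, rfl⟩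
  rw [← hxd] at hx hx2 hy
  refine KD_odd d (y := y) 2 ?_
  have h1 : v (x ^ 3 + A * x) ≤ w ^ 6 := by
    refine KD_add d ?_ (KD_mul (m := 4) (n := 2) d hA hx2)
    rw [map_pow]
    calc v x ^ 3 ≤ (w ^ 2) ^ 3 := pow_le_pow_left₀ (v.nonneg _) hx2 3
      _ = w ^ 6 := by ring
  rw [hy, KD_eq d (by rw [hB]; linarith), hB]

end Pool.Agent.Helper86.LK
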