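import Pool.Agent.Helper86.LK.KA
import Pool.Agent.Helper86.LK.KD

/-!
case_4a: `v A ≤ w²`, `v B ≤ w³`, and (`v A = w²` or `v B = w³`).

PROOF.  `P` not in `E0`, `x = X P / Z P`, `v x ≤ w`, `f = x³ + A x + B = y²`, `v f ≤ w³`, even power,
so `v f ≤ w⁴`; `e = v (3x²+A) ≤ w²`; `num = (3x²+A)² - 8 x f`.
If `e = w²`: `v num = w⁴` (`v (8 x f) ≤ w⁵`) `≥ v f`: `E0 (2P)`.
If `e ≤ w³`: then `v x = w` (otherwise `v x ≤ w²`, so `v A = v (3x²+A - 3x²) ≤ w³` and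
`v B = v (f - x³ - A x) ≤ w⁴`, contradiction).  `e²` is an even power of `w`, `v (8 x f)` is an odd
power, so `v num = max (e²) (w v f)`.  If `e² > w v f` (so `e² ≥ v f` by parity): `v num = e² ≥ v f`,
`E0 (2P)` (also if `f = 0`).  Otherwise `e² < w v f`, so `e² ≤ w² v f`... (`e²/ v f ≤ w²`): then
`x2 = x(2P) = -2x + (3x²+A)²/(4f)` has `v (x2 + 2x) ≤ w²`, `v x2 = w`; put `Q = 2P`; if `E0 Q` done;
otherwise `v (3 x2² + A) = v (9x² + small) = w²`, so by the first case applied to `Q`: `E0 (4P)`.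
-/

namespace Pool.Agent.Helper86.LK

variable {G K : Type*} [AddCommGroup G] [Field K] {A B : K} {X Z : G → K}
  {v : AbsoluteValue K ℝ} {w : ℝ}

/-- the size of `f` -/
private theorem kc_f (h : Kum A B X Z) (d : Disc v w) (hA : v A ≤ w ^ 2) (hB : v B ≤ w ^ 3)
    {P : G} (hZ : Z P ≠ 0) (hx : v (X P / Z P) ≤ w ^ 1) :
    v ((X P / Z P) ^ 3 + A * (X P / Z P) + B) ≤ w ^ 4 := by
  obtain ⟨y, hy⟩ := h.eqn P hZ
  obtain ⟨x, hxd⟩ : ∃ x, x = X P / Z P := ⟨_, rfl⟩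
  rw [← hxd] at hx hy ⊢
  have h3 : v (x ^ 3) ≤ w ^ 3 := by
    rw [map_pow]
    calc v x ^ 3 ≤ (w ^ 1) ^ 3 := pow_le_pow_left₀ (v.nonneg _) hx 3
      _ = w ^ 3 := by ring
  have h4 : v (x ^ 3 + A * x + B) ≤ w ^ 3 :=
    KD_add d (KD_add d h3 (KD_mul (m := 2) (n := 1) d hA hx)) hB
  rcases h4.lt_or_eq with h5 | h5
  · exact KD_pow d 3 h5
  · exfalso
    exact KD_odd d (y := y) 1 (by rw [hy, h5])

private theorem kc_x (h : Kum A B X Z) (d : Disc v w) {P : G} (hP : ¬ E0 v X Z P) :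
    Z P ≠ 0 ∧ v (X P / Z P) ≤ w ^ 1 := by
  obtain ⟨hZ, hx⟩ := not_E0 h hP
  exact ⟨hZ, KD_pow d 0 (by rwa [pow_zero])⟩

private theorem kc_first (h : Kum A B X Z) (d : Disc v w) (hA : v A ≤ w ^ 2) (hB : v B ≤ w ^ 3)
    {P : G} (hP : ¬ E0 v X Z P) (he : v (3 * (X P / Z P) ^ 2 + A) = w ^ 2) :
    E0 v X Z (2 • P) := by
  obtain ⟨hZ, hx⟩ := kc_x h d hP
  have hf := kc_f h d hA hB hZ hx
  rw [E0_two h P hZ, KD_four d]
  obtain ⟨x, hxd⟩ : ∃ x, x = X P / Z P := ⟨_, rfl⟩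
  rw [← hxd] at hx hf he ⊢
  obtain ⟨f, hfd⟩ : ∃ f, f = x ^ 3 + A * x + B := ⟨_, rfl⟩
  rw [← hfd] at hf ⊢
  have w54 : w ^ 5 < w ^ 4 := pow_lt_pow_right_of_lt_one₀ d.w0 d.w1 (by norm_num)
  have h4 : v ((3 * x ^ 2 + A) ^ 2) = w ^ 4 := by
    rw [map_pow, he]; ring
  have h5 : v (-(8 * x * f)) ≤ w ^ 5 := by
    rw [v.map_neg]
    have h6 := KD_nat d 8 (KD_mul (m := 1) (n := 4) d hx hf)
    push_cast at h6
    rwa [← mul_assoc] at h6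
  rw [sub_eq_add_neg, add_comm, KD_eq d (by rw [h4]; linarith), h4]
  exact hf

theorem case_4a (h : Kum A B X Z) (d : Disc v w) (hA : v A ≤ w ^ 2) (hB : v B ≤ w ^ 3)
    (hAB : v A = w ^ 2 ∨ v B = w ^ 3) (P : G) (hP : ¬ E0 v X Z P) :
    E0 v X Z (2 • P) ∨ E0 v X Z (4 • P) := by
  obtain ⟨hZ, hx⟩ := kc_x h d hP
  have hf := kc_f h d hA hB hZ hx
  have w32 : w ^ 3 < w ^ 2 := pow_lt_pow_right_of_lt_one₀ d.w0 d.w1 (by norm_num)
  have w43 : w ^ 4 < w ^ 3 := pow_lt_pow_right_of_lt_one₀ d.w0 d.w1 (by norm_num)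
  have w54 : w ^ 5 < w ^ 4 := pow_lt_pow_right_of_lt_one₀ d.w0 d.w1 (by norm_num)
  have w64 : w ^ 6 ≤ w ^ 4 := pow_le_pow_of_le_one d.w0.le d.w1.le (by norm_num)
  have he : v (3 * (X P / Z P) ^ 2 + A) ≤ w ^ 2 := by
    refine KD_add d ?_ hA
    have h2 := KD_nat d 3 (KD_mul (m := 1) (n := 1) d hx hx)
    push_cast at h2
    rwa [← pow_two] at h2
  rcases he.lt_or_eq with he1 | he1
  swap
  · exact Or.inl (kc_first h d hA hB hP he1)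
  have he3 : v (3 * (X P / Z P) ^ 2 + A) ≤ w ^ 3 := KD_pow d 2 he1
  by_cases hQ : E0 v X Z (2 • P)
  · exact Or.inl hQ
  right
  -- the size of `x`
  have hxw : v (X P / Z P) = w ^ 1 := by
    rcases hx.lt_or_eq with h1 | h1
    swap
    · exact h1
    exfalso
    have h2 : v (X P / Z P) ≤ w ^ 2 := KD_pow d 1 h1
    obtain ⟨x, hxd⟩ : ∃ x, x = X P / Z P := ⟨_, rfl⟩
    rw [← hxd] at h2 he3 hf
    have h3 : v (3 * x ^ 2) ≤ w ^ 4 := by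
      have h4 := KD_nat d 3 (KD_mul (m := 2) (n := 2) d h2 h2)
      push_cast at h4
      rwa [← pow_two] at h4
    have hA3 : v A ≤ w ^ 3 := by
      have h4 : A = (3 * x ^ 2 + A) - 3 * x ^ 2 := by ring
      rw [h4]
      exact KD_sub d he3 (h3.trans w43.le)
    have hB4 : v B ≤ w ^ 4 := by
      have h4 : B = (x ^ 3 + A * x + B) - (x ^ 3 + A * x) := by ring
      rw [h4]
      refine KD_sub d hf (KD_add d ?_ ?_)
      · rw [map_pow]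
        calc v x ^ 3 ≤ (w ^ 2) ^ 3 := pow_le_pow_left₀ (v.nonneg _) h2 3
          _ = w ^ 6 := by ring
          _ ≤ w ^ 4 := w64
      · exact (KD_mul (m := 3) (n := 2) d hA3 h2).trans w54.le
    rcases hAB with h4 | h4 <;> linarith
  -- the double
  obtain ⟨y, hy⟩ := h.eqn P hZ
  have hlt : v ((3 * (X P / Z P) ^ 2 + A) ^ 2 -
      8 * (X P / Z P) * ((X P / Z P) ^ 3 + A * (X P / Z P) + B)) <
      v ((X P / Z P) ^ 3 + A * (X P / Z P) + B) := by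
    rw [E0_two h P hZ, KD_four d, not_le] at hQ
    exact hQ
  have hf0 : (X P / Z P) ^ 3 + A * (X P / Z P) + B ≠ 0 := by
    intro h0
    rw [h0, map_zero] at hlt
    exact absurd hlt (not_lt.2 (v.nonneg _))
  obtain ⟨hZ2, hx2⟩ := x_two h d.two_ne P hZ hf0
  obtain ⟨-, hx2v⟩ := kc_x h d hQ
  have hfirst := kc_first h d hA hB hQ
  have e4 : 2 • (2 • P) = 4 • P := by
    rw [← mul_nsmul]
  rw [e4] at hfirst
  apply hfirst
  obtain ⟨x, hxd⟩ : ∃ x, x = X P / Z P := ⟨_, rfl⟩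
  obtain ⟨x2, hx2d⟩ : ∃ x2, x2 = X (2 • P) / Z (2 • P) := ⟨_, rfl⟩
  rw [← hx2d] at hx2 hx2v ⊢
  rw [← hxd] at hx2 hxw hy hf0 he3
  obtain ⟨e, hed⟩ : ∃ e, e = 3 * x ^ 2 + A := ⟨_, rfl⟩
  rw [← hed] at hx2 he3
  rw [← hy] at hx2 hf0
  have hy0 : y ≠ 0 := by
    rintro rfl
    exact hf0 (by ring)
  have h4ne : (4 : K) ≠ 0 := by
    have e : (4 : K) = 2 * 2 := by norm_num
    rw [e]
    exact mul_ne_zero d.two_ne d.two_ne
  -- `s = x2 + 2 x`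
  obtain ⟨s, hsd⟩ : ∃ s, s = x2 + 2 * x := ⟨_, rfl⟩
  have hs4 : 4 * s = (e / y) ^ 2 := by
    rw [hsd, hx2]
    field_simp
    ring
  have hsw : v s ≤ w ^ 1 := by
    rw [hsd]
    refine KD_add d hx2v ?_
    rw [map_mul, d.two, one_mul, hxw]
  have hs2 : v s ≤ w ^ 2 := by
    rcases hsw.lt_or_eq with h1 | h1
    · exact KD_pow d 1 h1
    · exfalso
      refine KD_odd d (y := e / y) 0 ?_
      rw [← hs4, KD_four d, h1]
  have key : 3 * x2 ^ 2 + A = (e + 3 * s ^ 2 - 12 * (x * s)) + 9 * x ^ 2 := by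
    rw [hed, hsd]
    ring
  have v9 : v (9 * x ^ 2) = w ^ 2 := by
    rw [show (9 : K) = 3 * 3 by norm_num, map_mul, map_mul, d.three, map_pow, hxw]
    ring
  rw [key, KD_eq d, v9]
  rw [v9]
  refine lt_of_le_of_lt (b := w ^ 3) ?_ w32
  refine KD_sub d (KD_add d he3 ?_) ?_
  · have h1 := KD_nat d 3 (KD_mul (m := 2) (n := 2) d hs2 hs2)
    push_cast at h1
    rw [← pow_two] at h1
    exact h1.trans w43.le
  · have h1 := KD_nat d 12 (KD_mul (m := 1) (n := 2) d hxw.le hs2)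
    push_cast at h1
    exact h1

end Pool.Agent.Helper86.LK
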