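import Pool.Agent.Helper86.LK.KB
import Pool.Agent.Helper86.LK.KC
import Pool.Agent.Helper86.LK.KD

/-!
Assembly: twelve times a point has nonsingular reduction at an additive place; and the choice of
the minimal scaling.

PROOF of `E0_twelve`: the cases exhaust all possibilities (values of nonzero elements are powers
of `w`, `pow_le`); `12 P = 6 (2P) = 4 (3P) = 3 (4P) = 12 P`, `E0_nsmul`.
`exists_scale`: `A, B` not both `0`; the set of `k : ℤ` with `v A ≤ w^(4k)`, `v B ≤ w^(6k)` is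
nonempty and bounded above; take the largest.
-/

namespace Pool.Agent.Helper86.LK

variable {G K : Type*} [AddCommGroup G] [Field K] {A B : K} {X Z : G → K}
  {v : AbsoluteValue K ℝ} {w : ℝ}

private theorem KE_split (d : Disc v w) {x : K} (n : ℕ) (hx : v x ≤ w ^ n) :
    v x = w ^ n ∨ v x ≤ w ^ (n + 1) := by
  rcases hx.eq_or_lt with h | h
  · exact Or.inl h
  · right
    have h1 : v x < w ^ ((n : ℕ) : ℤ) := by rwa [zpow_natCast]
    have h2 := pow_le d h1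
    have h3 : w ^ (((n : ℕ) : ℤ) + 1) = w ^ (n + 1) := by
      rw [← zpow_natCast w (n + 1)]
      push_cast
      rfl
    rwa [h3] at h2

theorem E0_twelve (h : Kum A B X Z) (d : Disc v w) (hA : v A ≤ w) (hB : v B ≤ w)
    (hm : ¬ (v A ≤ w ^ 4 ∧ v B ≤ w ^ 6)) (P : G) : E0 v X Z (12 • P) := by
  have hA1 : v A < 1 := hA.trans_lt d.w1
  have hB1 : v B < 1 := hB.trans_lt d.w1
  have k1 : E0 v X Z P → E0 v X Z (12 • P) := fun hP => E0_nsmul h d.na hA1 hB1 hP 12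
  have k2 : E0 v X Z (2 • P) → E0 v X Z (12 • P) := fun hP => by
    have h1 := E0_nsmul h d.na hA1 hB1 hP 6
    rwa [← mul_nsmul'] at h1
  have k3 : E0 v X Z (3 • P) → E0 v X Z (12 • P) := fun hP => by
    have h1 := E0_nsmul h d.na hA1 hB1 hP 4
    rwa [← mul_nsmul'] at h1
  have k4 : E0 v X Z (4 • P) → E0 v X Z (12 • P) := fun hP => by
    have h1 := E0_nsmul h d.na hA1 hB1 hP 3
    rwa [← mul_nsmul'] at h1
  by_cases hP : E0 v X Z P
  · exact k1 hP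
  rcases KE_split d 1 (by rwa [pow_one] : v B ≤ w ^ 1) with hB1' | hB2
  · exact k1 (case_1 h d hA (by rwa [pow_one] at hB1') P)
  rcases KE_split d 1 (by rwa [pow_one] : v A ≤ w ^ 1) with hA1' | hA2
  · exact k2 (case_2 h d (by rwa [pow_one] at hA1') hB2 P hP)
  rcases KE_split d 2 hB2 with hB2' | hB3
  · exact k3 (case_3 h d hA2 hB2' P hP)
  rcases KE_split d 2 hA2 with hA2' | hA3
  · rcases case_4a h d hA2 hB3 (Or.inl hA2') P hP with h1 | h1
    · exact k2 h1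
    · exact k4 h1
  rcases KE_split d 3 hB3 with hB3' | hB4
  · rcases case_4a h d hA2 hB3 (Or.inr hB3') P hP with h1 | h1
    · exact k2 h1
    · exact k4 h1
  rcases KE_split d 4 hB4 with hB4' | hB5
  · exact k3 (case_4b h d hA3 hB4' P hP)
  rcases KE_split d 3 hA3 with hA3' | hA4
  · exact k2 (case_4c h d hA3' hB5 P hP)
  rcases KE_split d 5 hB5 with hB5' | hB6
  · exact k1 (case_4d h d hA4 hB5' P)
  · exact absurd ⟨hA4, hB6⟩ hm

private theorem KE_low (d : Disc v w) (x : K) : ∃ a : ℤ, 0 ≤ a ∧ ∀ m : ℤ, m ≤ -a →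
    v x ≤ w ^ m := by
  rcases eq_or_ne x 0 with h | h
  · refine ⟨0, le_refl _, fun m _ => ?_⟩
    rw [h, map_zero]
    exact (zpow_pos d.w0 m).le
  · obtain ⟨k, hk⟩ := d.pow x h
    refine ⟨|k|, abs_nonneg _, fun m hm => ?_⟩
    rw [hk, zpow_le_zpow_iff_right_of_lt_one₀ d.w0 d.w1]
    exact hm.trans (neg_abs_le k)

private theorem KE_up (d : Disc v w) {x : K} (h : x ≠ 0) : ∃ a : ℤ, 0 ≤ a ∧ ∀ m : ℤ,
    v x ≤ w ^ m → m ≤ a := by
  obtain ⟨k, hk⟩ := d.pow x h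
  refine ⟨|k|, abs_nonneg _, fun m hm => ?_⟩
  rw [hk, zpow_le_zpow_iff_right_of_lt_one₀ d.w0 d.w1] at hm
  exact hm.trans (le_abs_self k)

theorem exists_scale (d : Disc v w) (hAB : A ≠ 0 ∨ B ≠ 0) :
    ∃ k : ℤ, v A ≤ w ^ (4 * k) ∧ v B ≤ w ^ (6 * k) ∧
      ¬ (v A ≤ w ^ (4 * (k + 1)) ∧ v B ≤ w ^ (6 * (k + 1))) := by
  have hbdd : ∃ b : ℤ, ∀ z : ℤ, (v A ≤ w ^ (4 * z) ∧ v B ≤ w ^ (6 * z)) → z ≤ b := by
    rcases hAB with h | h
    · obtain ⟨a, ha, hb⟩ := KE_up d h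
      refine ⟨a, fun z hz => ?_⟩
      have := hb _ hz.1
      omega
    · obtain ⟨a, ha, hb⟩ := KE_up d h
      refine ⟨a, fun z hz => ?_⟩
      have := hb _ hz.2
      omega
  have hinh : ∃ z : ℤ, v A ≤ w ^ (4 * z) ∧ v B ≤ w ^ (6 * z) := by
    obtain ⟨a, ha, ha'⟩ := KE_low d A
    obtain ⟨b, hb, hb'⟩ := KE_low d B
    exact ⟨-(a + b), ha' _ (by omega), hb' _ (by omega)⟩
  obtain ⟨k, hk, hmax⟩ := Int.exists_greatest_of_bdd hbdd hinh
  refine ⟨k, hk.1, hk.2, fun hc => ?_⟩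
  have := hmax (k + 1) hc
  omega

end Pool.Agent.Helper86.LK
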