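import Pool.Agent.Helper86.LK.Defs
import Pool.Agent.Helper86.LH.Inv

/-!
(1) Finite places of a number field are discrete.  (2) A curve with `c₄, c₆` small at `v` has a
`v`-integral model with small discriminant.

PROOF.  (1) `FinitePlace`: `v x = (N p)^(-ord x)` (Mathlib: `NumberField.FinitePlace`,
`maximalIdeal`, `adicAbv`, `valuation`); `w` is the value of a uniformizer.
(2) Use the variable change `u = π^k`, `r = -b₂/12`, `s = -a₁/2`,
`t = -(a₃ + r a₁)/2` (signs as in Mathlib's `VariableChange`): the result is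
`y² = x³ + A u^(-4) x + B u^(-6)`, `A = -c₄/48`, `B = -c₆/864`, discriminant `Δ u^(-12)`
(Mathlib: `variableChange_a₁`, ..., `variableChange_Δ`).
-/

namespace Pool.Agent.Helper86.LK

open NumberField

/-- Every finite place not above 6 is discrete. -/
theorem fin_disc {K : Type*} [Field K] [NumberField K] (v : FinitePlace K)
    (h6 : v.val 6 = 1) : ∃ p : K, p ≠ 0 ∧ Disc v.val (v.val p) := by
  obtain ⟨M, hM⟩ : ∃ M, M = FinitePlace.maximalIdeal v := ⟨_, rfl⟩
  have hval : ∀ x : K, v.val x = WithZeroMulInt.toNNReal (HeightOneSpectrum.absNorm_ne_zero M)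
      (M.valuation K x) := by
    intro x
    have h1 := FinitePlace.norm_embedding_eq v x
    rw [← hM, FinitePlace.norm_embedding'] at h1
    exact h1.symm
  have habv : v.val = HeightOneSpectrum.adicAbv K M := by
    ext x
    rw [hval x, HeightOneSpectrum.adicAbv_def]
  have hna : IsNonarchimedean v.val := by
    rw [habv]
    exact HeightOneSpectrum.isNonarchimedean_adicAbv K M
  obtain ⟨p, hp⟩ := M.valuation_exists_uniformizer K
  have hp0 : p ≠ 0 := by
    rintro rfl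
    rw [map_zero] at hp
    exact WithZero.exp_ne_zero hp.symm
  have h23 : v.val 2 * v.val 3 = 1 := by
    rw [← map_mul, ← h6]
    norm_num
  have h2 : v.val 2 ≤ 1 := by
    have h := IsNonarchimedean.apply_natCast_le_one (n := 2) hna
    exact_mod_cast h
  have h3 : v.val 3 ≤ 1 := by
    have h := IsNonarchimedean.apply_natCast_le_one (n := 3) hna
    exact_mod_cast h
  have n2 := v.val.nonneg 2
  have n3 := v.val.nonneg 3
  refine ⟨p, hp0, hna, by nlinarith, by nlinarith, v.val.pos hp0, ?_, ?_⟩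
  · rw [hval, hp]
    have h1 : WithZeroMulInt.toNNReal (HeightOneSpectrum.absNorm_ne_zero M)
        (WithZero.exp (-1 : ℤ)) < 1 := by
      rw [WithZeroMulInt.toNNReal_lt_one_iff (HeightOneSpectrum.one_lt_absNorm_nnreal M)]
      rw [← WithZero.exp_zero, WithZero.exp_lt_exp]
      norm_num
    exact_mod_cast h1
  · intro x hx
    have hx0 : M.valuation K x ≠ 0 := (Valuation.ne_zero_iff _).2 hx
    refine ⟨-WithZero.log (M.valuation K x), ?_⟩
    have h1 : M.valuation K x = (WithZero.exp (-1 : ℤ)) ^ (-WithZero.log (M.valuation K x)) := by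
      rw [← WithZero.exp_zsmul]
      conv_lhs => rw [← WithZero.exp_log hx0]
      congr 1
      simp
    rw [hval x, hval p, hp]
    conv_lhs => rw [h1]
    rw [map_zpow₀]
    push_cast
    rfl

/-- An integral short model. -/
theorem exists_model {K : Type*} [Field K] (h6 : (6 : K) ≠ 0) (W : WeierstrassCurve K)
    (v : AbsoluteValue K ℝ) (u : Kˣ) (h4 : v (-W.c₄ / 48) ≤ v u ^ 4)
    (h6' : v (-W.c₆ / 864) ≤ v u ^ 6) :
    ∃ C : WeierstrassCurve.VariableChange K,
      v (C • W).a₁ ≤ 1 ∧ v (C • W).a₂ ≤ 1 ∧ v (C • W).a₃ ≤ 1 ∧ v (C • W).a₄ ≤ 1 ∧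
      v (C • W).a₆ ≤ 1 ∧ v (C • W).Δ = v W.Δ / v u ^ 12 := by
  obtain ⟨h2, h3, h12⟩ := LH.Inv_ne h6
  obtain ⟨h4', -, h48, h864⟩ := LH.Inv_nums h6
  have hu : 0 < v u := v.pos u.ne_zero
  have hui : v ((u⁻¹ : Kˣ) : K) = (v u)⁻¹ := by
    rw [Units.val_inv_eq_inv_val, map_inv₀]
  refine ⟨⟨u, -W.b₂ / 12, -W.a₁ / 2, -(W.a₃ + (-W.b₂ / 12) * W.a₁) / 2⟩, ?_, ?_, ?_, ?_, ?_, ?_⟩
  · rw [WeierstrassCurve.variableChange_a₁]
    have e : W.a₁ + 2 * (-W.a₁ / 2) = 0 := by
      field_simp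
      ring
    simp only
    rw [e, mul_zero, map_zero]
    exact zero_le_one
  · rw [WeierstrassCurve.variableChange_a₂]
    have e : W.a₂ - -W.a₁ / 2 * W.a₁ + 3 * (-W.b₂ / 12) - (-W.a₁ / 2) ^ 2 = 0 := by
      simp only [WeierstrassCurve.b₂]
      field_simp
      ring
    simp only
    rw [e, mul_zero, map_zero]
    exact zero_le_one
  · rw [WeierstrassCurve.variableChange_a₃]
    have e : W.a₃ + -W.b₂ / 12 * W.a₁ + 2 * (-(W.a₃ + (-W.b₂ / 12) * W.a₁) / 2) = 0 := by
      field_simp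
      ring
    simp only
    rw [e, mul_zero, map_zero]
    exact zero_le_one
  · rw [WeierstrassCurve.variableChange_a₄]
    have e : W.a₄ - -W.a₁ / 2 * W.a₃ + 2 * (-W.b₂ / 12) * W.a₂ -
        (-(W.a₃ + (-W.b₂ / 12) * W.a₁) / 2 + -W.b₂ / 12 * (-W.a₁ / 2)) * W.a₁ +
        3 * (-W.b₂ / 12) ^ 2 - 2 * (-W.a₁ / 2) * (-(W.a₃ + (-W.b₂ / 12) * W.a₁) / 2) =
        -W.c₄ / 48 := by
      simp only [WeierstrassCurve.c₄, WeierstrassCurve.b₂, WeierstrassCurve.b₄]
      field_simp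
      ring
    simp only
    rw [e, map_mul, map_pow, hui, inv_pow, inv_mul_le_one₀ (pow_pos hu 4)]
    exact h4
  · rw [WeierstrassCurve.variableChange_a₆]
    have e : W.a₆ + -W.b₂ / 12 * W.a₄ + (-W.b₂ / 12) ^ 2 * W.a₂ + (-W.b₂ / 12) ^ 3 -
        -(W.a₃ + (-W.b₂ / 12) * W.a₁) / 2 * W.a₃ - (-(W.a₃ + (-W.b₂ / 12) * W.a₁) / 2) ^ 2 -
        -W.b₂ / 12 * (-(W.a₃ + (-W.b₂ / 12) * W.a₁) / 2) * W.a₁ = -W.c₆ / 864 := by
      simp only [WeierstrassCurve.c₆, WeierstrassCurve.b₂, WeierstrassCurve.b₄,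
        WeierstrassCurve.b₆]
      field_simp
      ring
    simp only
    rw [e, map_mul, map_pow, hui, inv_pow, inv_mul_le_one₀ (pow_pos hu 6)]
    exact h6'
  · rw [WeierstrassCurve.variableChange_Δ]
    simp only
    rw [map_mul, map_pow, hui, inv_pow, div_eq_mul_inv, mul_comm]

end Pool.Agent.Helper86.LK
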