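import Pool.Agent.Helper86.LK.Defs
import Pool.Agent.Helper86.LH.Inv
import Pool.Agent.Helper51.Par

/-!
The Kummer data of an elliptic curve, short coordinate scaled by `u²`.

PROOF.  `Helper51.Par.addSubMap_sym2x` and `addSubMap_eval` give the law in the coordinates
`P.xRep` (see `Pool/Agent/Helper86/LH/Pts.lean`, theorem `tv_law`, for the same computation with
another translation).  Translate by `r = -b₂/12` (`LH.tr_N`, `LH.tr_S`: with this `r` the new
invariants are `b₂ = 0`, `b₄ = 2 A`, `b₆ = 4 B`, `b₈ = -A²`, where `A = -c₄/48`, `B = -c₆/864`), then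
scale `Z` by `u²`: the law for `(X, u² Z)` with `A/u⁴, B/u⁶` (constant `c u⁴` in the second
equation must be the same in all three: multiply the three equations by suitable powers of `u`;
`N` is unchanged, `S` is multiplied by `u²`, `D` by `u⁴`).  Equation: `y = (2 Y + a₁ x + a₃)/2`, divided
by `u³`.
-/

namespace Pool.Agent.Helper86.LK

open WeierstrassCurve WeierstrassCurve.Affine WeierstrassCurve.Affine.Point

/-- The invariants in terms of the scaled short equation. -/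
theorem KP_inv {K : Type*} [Field K] (h6 : (6 : K) ≠ 0) (W : WeierstrassCurve K) (u : K)
    (hu : u ≠ 0) {A B β : K} (hA : A = -W.c₄ / 48 / u ^ 4) (hB : B = -W.c₆ / 864 / u ^ 6)
    (hβ : β = W.b₂ / 12) :
    W.b₂ = 12 * β ∧ W.b₄ = 2 * (A * u ^ 4 + 3 * β ^ 2) ∧
    W.b₆ = 4 * (B * u ^ 6 + β * (A * u ^ 4 + 3 * β ^ 2) - 2 * β ^ 3) ∧
    W.b₈ = 12 * β * (B * u ^ 6 + β * (A * u ^ 4 + 3 * β ^ 2) - 2 * β ^ 3) -
      (A * u ^ 4 + 3 * β ^ 2) ^ 2 := by
  obtain ⟨h4, h12, h48, h864⟩ := LH.Inv_nums h6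
  have e2 : W.b₂ = 12 * β := by rw [hβ]; field_simp
  have hA' : A * u ^ 4 * 48 = -W.c₄ := by rw [hA]; field_simp
  have hB' : B * u ^ 6 * 864 = -W.c₆ := by rw [hB]; field_simp
  simp only [WeierstrassCurve.c₄, WeierstrassCurve.c₆] at hA' hB'
  rw [e2] at hA' hB'
  have h24 : (24 : K) ≠ 0 := by
    have e : (24 : K) = 2 * 12 := by norm_num
    rw [e]; exact mul_ne_zero (LH.Inv_ne h6).1 h12
  have h216 : (216 : K) ≠ 0 := by
    have e : (216 : K) = 6 * (6 * 6) := by norm_num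
    rw [e]; exact mul_ne_zero h6 (mul_ne_zero h6 h6)
  have e4 : W.b₄ = 2 * (A * u ^ 4 + 3 * β ^ 2) := by
    apply mul_left_cancel₀ h24
    linear_combination -hA'
  have e6 : W.b₆ = 4 * (B * u ^ 6 + β * (A * u ^ 4 + 3 * β ^ 2) - 2 * β ^ 3) := by
    rw [e4] at hB'
    apply mul_left_cancel₀ h216
    linear_combination -hB'
  refine ⟨e2, e4, e6, ?_⟩
  apply mul_left_cancel₀ h4
  rw [W.b_relation, e2, e4, e6]
  ring

theorem kum {K : Type*} [Field K] [DecidableEq K] (h6 : (6 : K) ≠ 0)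
    (W : WeierstrassCurve.Affine K) [W.IsElliptic] (u : K) (hu : u ≠ 0) :
    Kum (G := W.Point) (-W.c₄ / 48 / u ^ 4) (-W.c₆ / 864 / u ^ 6)
      (fun P => P.xRep 0 + W.b₂ / 12 * P.xRep 1) (fun P => u ^ 2 * P.xRep 1) := by
  obtain ⟨A, hA⟩ : ∃ A, A = -W.c₄ / 48 / u ^ 4 := ⟨_, rfl⟩
  obtain ⟨B, hB⟩ : ∃ B, B = -W.c₆ / 864 / u ^ 6 := ⟨_, rfl⟩
  obtain ⟨β, hβ⟩ : ∃ β, β = W.b₂ / 12 := ⟨_, rfl⟩
  obtain ⟨h2, h4, h6', h8⟩ := KP_inv h6 W u hu hA hB hβ
  rw [← hA, ← hB, ← hβ]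
  refine ⟨?_, ?_, ?_, ?_⟩
  · intro P
    by_cases h1 : P.xRep 1 = 0
    · left
      change P.xRep 0 + β * P.xRep 1 ≠ 0
      rw [h1, mul_zero, add_zero]
      intro h0
      apply xRep_ne_zero P
      ext i
      fin_cases i
      · exact h0
      · exact h1
    · exact Or.inr (mul_ne_zero (pow_ne_zero 2 hu) h1)
  · change u ^ 2 * (0 : W.Point).xRep 1 = 0
    rw [xRep_zero]
    simp
  · intro P hP
    change u ^ 2 * P.xRep 1 ≠ 0 at hP
    change ∃ y : K, y ^ 2 = ((P.xRep 0 + β * P.xRep 1) / (u ^ 2 * P.xRep 1)) ^ 3 +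
      A * ((P.xRep 0 + β * P.xRep 1) / (u ^ 2 * P.xRep 1)) + B
    match P, hP with
    | 0, hP =>
      exfalso
      apply hP
      rw [xRep_zero]
      simp
    | Point.some x y h, _ =>
      have e := (W.equation_iff x y).mp h.1
      have h2' : (2 : K) ≠ 0 := (LH.Inv_ne h6).1
      refine ⟨(2 * y + W.a₁ * x + W.a₃) / (2 * u ^ 3), ?_⟩
      rw [xRep_some]
      simp only [Matrix.cons_val_zero, Matrix.cons_val_one, mul_one]
      have e' : (2 * y + W.a₁ * x + W.a₃) ^ 2 =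
          4 * ((x + β) ^ 3 + A * u ^ 4 * (x + β) + B * u ^ 6) := by
        have e1 : (2 * y + W.a₁ * x + W.a₃) ^ 2 =
            4 * x ^ 3 + W.b₂ * x ^ 2 + 2 * W.b₄ * x + W.b₆ := by
          simp only [WeierstrassCurve.b₂, WeierstrassCurve.b₄, WeierstrassCurve.b₆]
          linear_combination 4 * e
        rw [e1, h2, h4, h6']
        ring
      rw [div_pow, e']
      field_simp
      ring
  · intro P Q
    obtain ⟨c, hc, he⟩ := Pool.Agent.Helper51.Par.addSubMap_sym2x W P Q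
    rw [Pool.Agent.Helper51.Par.addSubMap_eval] at he
    have e0 := congrFun he 0
    have e1 := congrFun he 1
    have e2 := congrFun he 2
    simp only [sym2x, Matrix.cons_val_zero, Matrix.cons_val_one, Matrix.cons_val, Pi.smul_apply,
      smul_eq_mul] at e0 e1 e2
    rw [h4, h6', h8] at e0
    rw [h2, h4, h6'] at e1
    refine ⟨c, hc, ?_, ?_, ?_⟩
    · linear_combination e0 + β * e1 + β ^ 2 * e2
    · linear_combination u ^ 2 * e1 + 2 * β * u ^ 2 * e2
    · linear_combination u ^ 4 * e2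

end Pool.Agent.Helper86.LK
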