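import Pool.Agent.Helper86.LH.AFin
import Pool.Agent.Helper86.LK.KE
import Pool.Agent.Helper86.LK.KN
import Pool.Agent.Helper86.LK.KP

/-!
The local gain at an additive place not above 6, for the multiples of 12.
-/

open Height AdmissibleAbsValues

namespace Pool.Agent.Helper86.LK

open WeierstrassCurve WeierstrassCurve.Affine WeierstrassCurve.Affine.Point
open Pool.Agent.Helper86.LH

section defs

variable {K : Type*} [Field K]

/-- All coefficients are integral at `v`. -/
def IsIntegralAt (v : AbsoluteValue K ℝ) (W : WeierstrassCurve K) : Prop :=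
  v W.a₁ ≤ 1 ∧ v W.a₂ ≤ 1 ∧ v W.a₃ ≤ 1 ∧ v W.a₄ ≤ 1 ∧ v W.a₆ ≤ 1

/-- Absolute values of the discriminants of the `v`-integral models. -/
def discSet (v : AbsoluteValue K ℝ) (W : WeierstrassCurve K) : Set ℝ :=
  {t | ∃ C : VariableChange K, IsIntegralAt v (C • W) ∧ t = v (C • W).Δ}

/-- `log (1/|Δ_min|_v)`. -/
noncomputable def logMinDisc (v : AbsoluteValue K ℝ) (W : WeierstrassCurve K) : ℝ :=
  -Real.log (sSup (discSet v W))

theorem disc_le_one {v : AbsoluteValue K ℝ} (hv : IsNonarchimedean v) {W : WeierstrassCurve K}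
    (h : IsIntegralAt v W) : v W.Δ ≤ 1 := by
  obtain ⟨h1, h2, h3, h4, h6⟩ := h
  have hn : ∀ n : ℕ, v (n : K) ≤ 1 := fun n => IsNonarchimedean.apply_natCast_le_one hv
  have ha : ∀ x y : K, v x ≤ 1 → v y ≤ 1 → v (x + y) ≤ 1 := fun x y hx hy =>
    (hv x y).trans (max_le hx hy)
  have hs : ∀ x y : K, v x ≤ 1 → v y ≤ 1 → v (x - y) ≤ 1 := fun x y hx hy => by
    rw [sub_eq_add_neg]
    exact ha _ _ hx (by rwa [map_neg_eq_map])
  have hm : ∀ x y : K, v x ≤ 1 → v y ≤ 1 → v (x * y) ≤ 1 := fun x y hx hy => by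
    rw [map_mul]
    exact mul_le_one₀ hx (v.nonneg _) hy
  have hp : ∀ (x : K) (n : ℕ), v x ≤ 1 → v (x ^ n) ≤ 1 := fun x n hx => by
    rw [map_pow]
    exact pow_le_one₀ (v.nonneg _) hx
  have hneg : ∀ x : K, v x ≤ 1 → v (-x) ≤ 1 := fun x hx => by rwa [map_neg_eq_map]
  have n2 : v (2 : K) ≤ 1 := by simpa using hn 2
  have n4 : v (4 : K) ≤ 1 := by simpa using hn 4
  have n8 : v (8 : K) ≤ 1 := by simpa using hn 8
  have n9 : v (9 : K) ≤ 1 := by simpa using hn 9
  have n27 : v (27 : K) ≤ 1 := by simpa using hn 27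
  have b2 : v W.b₂ ≤ 1 := by
    rw [WeierstrassCurve.b₂]
    exact ha _ _ (hp _ _ h1) (hm _ _ n4 h2)
  have b4 : v W.b₄ ≤ 1 := by
    rw [WeierstrassCurve.b₄]
    exact ha _ _ (hm _ _ n2 h4) (hm _ _ h1 h3)
  have b6 : v W.b₆ ≤ 1 := by
    rw [WeierstrassCurve.b₆]
    exact ha _ _ (hp _ _ h3) (hm _ _ n4 h6)
  have b8 : v W.b₈ ≤ 1 := by
    rw [WeierstrassCurve.b₈]
    exact hs _ _ (ha _ _ (hs _ _ (ha _ _ (hm _ _ (hp _ _ h1) h6)
      (hm _ _ (hm _ _ n4 h2) h6)) (hm _ _ (hm _ _ h1 h3) h4)) (hm _ _ h2 (hp _ _ h3))) (hp _ _ h4)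
  rw [WeierstrassCurve.Δ]
  exact ha _ _ (hs _ _ (hs _ _ (hm _ _ (hneg _ (hp _ _ b2)) b8) (hm _ _ n8 (hp _ _ b4)))
    (hm _ _ n27 (hp _ _ b6))) (hm _ _ (hm _ _ (hm _ _ n9 b2) b4) b6)

theorem logMinDisc_le {v : AbsoluteValue K ℝ} (hv : IsNonarchimedean v) {W : WeierstrassCurve K}
    {t : ℝ} (ht : t ∈ discSet v W) (ht0 : 0 < t) : logMinDisc v W ≤ -Real.log t := by
  have hb : BddAbove (discSet v W) := by
    refine ⟨1, ?_⟩
    rintro s ⟨C, hC, rfl⟩
    exact disc_le_one hv hC
  rw [logMinDisc, neg_le_neg_iff]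
  exact Real.log_le_log ht0 (le_csSup hb ht)

end defs

section gain

variable {K : Type*} [Field K] [DecidableEq K] (W : WeierstrassCurve.Affine K) [W.IsElliptic]

/-- The gain. -/
noncomputable def gn (v : AbsoluteValue K ℝ) : ℝ :=
  max 0 (logMinDisc v W - Real.posLog (v W.j))

variable {W}

omit [DecidableEq K] in
theorem nj_eq_posLog {v : AbsoluteValue K ℝ} (h : IsMul W v) :
    -Real.log (qv W v) = Real.posLog (v W.j) := by
  have h1 := nj_eq W v
  rw [nj] at h1
  rw [h1, Real.posLog_eq_log_max_one (v.nonneg _), max_eq_right ((isMul_iff W v).mp h).le]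

omit [DecidableEq K] in
theorem posLog_of_not {v : AbsoluteValue K ℝ} (h : ¬ IsMul W v) :
    Real.posLog (v W.j) = 0 := by
  rw [isMul_iff, not_lt] at h
  rw [Real.posLog_eq_log_max_one (v.nonneg _), max_eq_left h, Real.log_one]

/-- Local lower bound for `12 P`. -/
theorem gain {v : AbsoluteValue K ℝ} {w : ℝ} (d : Disc v w) {p : K} (hp : p ≠ 0)
    (hpw : v p = w) (P : W.Point) (hP : 12 • P ≠ 0) :
    1 / 6 * Real.log (v W.Δ) + 1 / 6 * Real.posLog (v W.j) + 1 / 6 * gn W v ≤
      loc W v ((12 • P).xRep 0) ((12 • P).xRep 1) := by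
  classical
  have hΔ : W.Δ ≠ 0 := W.isUnit_Δ.ne_zero
  have hv := d.na
  have v6 : v 6 = 1 := by
    rw [show (6 : K) = 2 * 3 by norm_num, map_mul, d.two, d.three, one_mul]
  have h6 : (6 : K) ≠ 0 := by
    intro h
    rw [h, v.map_zero] at v6
    norm_num at v6
  have v12 : v 12 = 1 := by
    rw [show (12 : K) = 2 * 6 by norm_num, map_mul, d.two, v6, one_mul]
  have v48 : v 48 = 1 := by
    rw [show (48 : K) = 2 * 2 * 12 by norm_num, map_mul, map_mul, d.two, v12, one_mul, one_mul]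
  have v864 : v 864 = 1 := by
    rw [show (864 : K) = 6 * 12 * 12 by norm_num, map_mul, map_mul, v6, v12, one_mul, one_mul]
  have h12 : (12 : K) ≠ 0 := by
    intro h
    rw [h, v.map_zero] at v12
    norm_num at v12
  -- the affine coordinate of `12 P`
  obtain ⟨x, hx0, hx1⟩ : ∃ x : K, (12 • P).xRep 0 = x ∧ (12 • P).xRep 1 = 1 := by
    generalize 12 • P = Q at hP
    match Q, hP with
    | Point.some x y hxy, _ => exact ⟨x, rfl, rfl⟩
    | 0, hP => exact absurd rfl hP
  rw [hx0, hx1]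
  -- base bound
  have base : 1 / 6 * Real.log (v W.Δ) + 1 / 6 * Real.posLog (v W.j) ≤ loc W v x 1 := by
    unfold loc
    split_ifs with hm
    · rw [← nj_eq_posLog hm, log_lv hΔ hm]
      exact locM_ge hm x
    · rw [posLog_of_not hm, mul_zero, add_zero]
      exact locA_ge hΔ v x
  set A : K := -W.c₄ / 48 with hAdef
  set B : K := -W.c₆ / 864 with hBdef
  have vA : v A = v W.c₄ := by rw [hAdef, map_div₀, map_neg_eq_map, v48, div_one]
  have vB : v B = v W.c₆ := by rw [hBdef, map_div₀, map_neg_eq_map, v864, div_one]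
  have hdisc : 16 * (4 * A ^ 3 + 27 * B ^ 2) = -W.Δ := sh_disc W h6
  have hAB : A ≠ 0 ∨ B ≠ 0 := by
    by_contra hc
    rw [not_or, not_not, not_not] at hc
    rw [hc.1, hc.2] at hdisc
    apply hΔ
    have : -W.Δ = 0 := by rw [← hdisc]; ring
    exact neg_eq_zero.mp this
  obtain ⟨k, k1, k2, k3⟩ := exists_scale d hAB
  set u : Kˣ := (Units.mk0 p hp) ^ k with hu
  have vu : v u = w ^ k := by
    rw [hu, Units.val_zpow_eq_zpow_val, map_zpow₀, Units.val_mk0, hpw]
  have hw0 := d.w0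
  have hu0 : (0 : ℝ) < v u := by rw [vu]; exact zpow_pos hw0 k
  have hune : (u : K) ≠ 0 := u.ne_zero
  have u4 : v (u : K) ^ 4 = w ^ (4 * k) := by
    rw [vu, ← zpow_natCast, ← zpow_mul, mul_comm]
    rfl
  have u6 : v (u : K) ^ 6 = w ^ (6 * k) := by
    rw [vu, ← zpow_natCast, ← zpow_mul, mul_comm]
    rfl
  obtain ⟨C, c1, c2, c3, c4, c6, cΔ⟩ := exists_model h6 W v u (by rw [u4]; exact k1)
    (by rw [u6]; exact k2)
  have ht : v W.Δ / v (u : K) ^ 12 ∈ discSet v W := ⟨C, ⟨c1, c2, c3, c4, c6⟩, cΔ.symm⟩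
  have ht0 : 0 < v W.Δ / v (u : K) ^ 12 := div_pos (v.pos hΔ) (pow_pos hu0 12)
  have hmin := logMinDisc_le hv ht ht0
  rw [Real.log_div (v.pos hΔ).ne' (pow_pos hu0 12).ne', Real.log_pow] at hmin
  push_cast at hmin
  set A0 : K := A / (u : K) ^ 4 with hA0
  set B0 : K := B / (u : K) ^ 6 with hB0
  have vA0 : v A0 = v A / v (u : K) ^ 4 := by rw [hA0, map_div₀, map_pow]
  have vB0 : v B0 = v B / v (u : K) ^ 6 := by rw [hB0, map_div₀, map_pow]
  have a1 : v A0 ≤ 1 := by
    rw [vA0, div_le_one (pow_pos hu0 4), u4]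
    exact k1
  have b1 : v B0 ≤ 1 := by
    rw [vB0, div_le_one (pow_pos hu0 6), u6]
    exact k2
  by_cases hg : logMinDisc v W - Real.posLog (v W.j) ≤ 0
  · rw [gn, max_eq_left hg, mul_zero, add_zero]
    exact base
  rw [gn, max_eq_right (not_le.mp hg).le]
  -- it suffices to bound by the logarithm of `u²`
  suffices hsuf : 2 * Real.log (v (u : K)) ≤ loc W v x 1 by linarith
  by_cases hadd : v A0 < 1 ∧ v B0 < 1
  · -- additive
    have a2 : v A0 ≤ w := by
      have := pow_le d (x := A0) (n := 0) (by rw [zpow_zero]; exact hadd.1)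
      simpa using this
    have b2 : v B0 ≤ w := by
      have := pow_le d (x := B0) (n := 0) (by rw [zpow_zero]; exact hadd.2)
      simpa using this
    have hm' : ¬ (v A0 ≤ w ^ 4 ∧ v B0 ≤ w ^ 6) := by
      rintro ⟨e1, e2⟩
      apply k3
      constructor
      · rw [vA0, div_le_iff₀ (pow_pos hu0 4), u4] at e1
        rw [mul_add, zpow_add₀ hw0.ne', mul_comm]
        exact_mod_cast e1
      · rw [vB0, div_le_iff₀ (pow_pos hu0 6), u6] at e2
        rw [mul_add, zpow_add₀ hw0.ne', mul_comm]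
        exact_mod_cast e2
    have hK := kum h6 W (u : K) hune
    have hE := E0_twelve hK d a2 b2 hm' P
    simp only [E0] at hE
    rw [hx0, hx1, mul_one, mul_one, map_pow] at hE
    -- `v u² ≤ v ξ`
    have hξ : Real.log (v (u : K) ^ 2) ≤ Real.log (v (x + W.b₂ / 12)) :=
      Real.log_le_log (pow_pos hu0 2) hE
    rw [Real.log_pow] at hξ
    push_cast at hξ
    have hξ0 : 0 < v (x + W.b₂ / 12) := lt_of_lt_of_le (pow_pos hu0 2) hE
    unfold loc
    split_ifs with hm
    · -- multiplicative after a ramified twist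
      have hc4 := hm.c4
      have hl : v (W.b₂ + 12 * rr W) = Real.sqrt (v W.c₄) :=
        (tr_sizes W v hv hΔ hm).1
      have hl2 : Real.sqrt (v W.c₄) < v (u : K) ^ 2 := by
        rw [Real.sqrt_lt' (pow_pos hu0 2)]
        have e1 : v A < v (u : K) ^ 4 := by
          have := hadd.1
          rwa [vA0, div_lt_one (pow_pos hu0 4)] at this
        rw [vA] at e1
        calc v W.c₄ < v (u : K) ^ 4 := e1
          _ = (v (u : K) ^ 2) ^ 2 := by ring
      have e2 : x - rr W * 1 = (x + W.b₂ / 12) + -((W.b₂ + 12 * rr W) / 12) := by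
        field_simp
        ring
      have e3 : v (-((W.b₂ + 12 * rr W) / 12)) < v (x + W.b₂ / 12) := by
        rw [map_neg_eq_map, map_div₀, v12, div_one, hl]
        exact lt_of_lt_of_le hl2 hE
      have e4 : v (x + W.b₂ / 12) ≤ v (x - rr W * 1) := by
        by_contra hc
        rw [not_le] at hc
        have e5 : x + W.b₂ / 12 = (x - rr W * 1) + ((W.b₂ + 12 * rr W) / 12) := by
          rw [e2]; ring
        have e6 : v (x + W.b₂ / 12) ≤ max (v (x - rr W * 1)) (v ((W.b₂ + 12 * rr W) / 12)) := by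
          calc v (x + W.b₂ / 12) = v ((x - rr W * 1) + ((W.b₂ + 12 * rr W) / 12)) := by rw [← e5]
            _ ≤ _ := hv _ _
        rw [map_neg_eq_map] at e3
        exact absurd e6 (not_le.mpr (max_lt hc e3))
      rw [locM]
      refine hξ.trans (Real.log_le_log hξ0 (e4.trans (le_max_left _ _)))
    · rw [locA, mul_one]
      exact hξ.trans (Real.log_le_log hξ0 (le_max_left _ _))
  · -- not additive: the gain is zero
    exfalso
    apply hg
    have hd0 : v W.Δ = v (4 * A ^ 3 + 27 * B ^ 2) := by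
      have e1 : v (16 * (4 * A ^ 3 + 27 * B ^ 2)) = v W.Δ := by rw [hdisc, map_neg_eq_map]
      have v16 : v 16 = 1 := by
        rw [show (16 : K) = 2 * 2 * 2 * 2 by norm_num, map_mul, map_mul, map_mul, d.two]
        norm_num
      rw [map_mul, v16, one_mul] at e1
      exact e1.symm
    by_cases hA1 : v A0 < 1
    · have hB1 : v B0 = 1 := by
        by_contra hc
        exact hadd ⟨hA1, lt_of_le_of_ne b1 hc⟩
      -- `|Δ| = |u|^12`
      have e1 : v A < v (u : K) ^ 4 := by
        rwa [vA0, div_lt_one (pow_pos hu0 4)] at hA1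
      have e2 : v B = v (u : K) ^ 6 := by
        rwa [vB0, div_eq_one_iff_eq (pow_pos hu0 6).ne'] at hB1
      have v27 : v 27 = 1 := by
        rw [show (27 : K) = 3 * 3 * 3 by norm_num, map_mul, map_mul, d.three]
        norm_num
      have v4 : v 4 = 1 := by
        rw [show (4 : K) = 2 * 2 by norm_num, map_mul, d.two, one_mul]
      have e3 : v (4 * A ^ 3) < v (27 * B ^ 2) := by
        rw [map_mul, map_mul, v4, v27, one_mul, one_mul, map_pow, map_pow, e2]
        calc v A ^ 3 < (v (u : K) ^ 4) ^ 3 := pow_lt_pow_left₀ e1 (v.nonneg _) (by norm_num)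
          _ = (v (u : K) ^ 6) ^ 2 := by ring
      have e4 : v (u : K) ^ 12 ≤ v W.Δ := by
        rw [hd0]
        by_contra hc
        rw [not_le] at hc
        have e5 : (27 * B ^ 2 : K) = (4 * A ^ 3 + 27 * B ^ 2) + -(4 * A ^ 3) := by ring
        have e6 : v (27 * B ^ 2) ≤ max (v (4 * A ^ 3 + 27 * B ^ 2)) (v (-(4 * A ^ 3))) := by
          calc v (27 * B ^ 2) = v ((4 * A ^ 3 + 27 * B ^ 2) + -(4 * A ^ 3)) := by rw [← e5]
            _ ≤ _ := hv _ _
        have e7 : v (27 * B ^ 2) = v (u : K) ^ 12 := by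
          rw [map_mul, v27, one_mul, map_pow, e2]; ring
        rw [map_neg_eq_map, e7] at e6
        rw [e7] at e3
        exact absurd e6 (not_le.mpr (max_lt hc e3))
      have e8 := Real.log_le_log (pow_pos hu0 12) e4
      rw [Real.log_pow] at e8
      push_cast at e8
      have e9 : 0 ≤ Real.posLog (v W.j) := Real.posLog_nonneg
      linarith
    · have hA2 : v A0 = 1 := le_antisymm a1 (not_lt.mp hA1)
      have e1 : v A = v (u : K) ^ 4 := by
        rwa [vA0, div_eq_one_iff_eq (pow_pos hu0 4).ne'] at hA2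
      have e2 : v W.j = v (u : K) ^ 12 / v W.Δ := by
        rw [j_eq, map_div₀, map_pow, ← vA, e1]
        congr 1
        ring
      have e3 : Real.log (v W.j) ≤ Real.posLog (v W.j) := by
        rw [Real.posLog]
        exact le_max_right _ _
      rw [e2, Real.log_div (pow_pos hu0 12).ne' (v.pos hΔ).ne', Real.log_pow] at e3
      push_cast at e3
      rw [e2]
      linarith

end gain

end Pool.Agent.Helper86.LK
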