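import Pool.Agent.Helper86.LK.Defs

/-!
Closure of `E0`, doubling and tripling criteria, valuations.

PROOF.  `E0_add`: `E0 P`, `E0 Q`, `v A < 1`, `v B < 1`: `v N = v (X P)² v (X Q)²` is the largest of
the three forms (`v S, v D ≤` it), so by the third and second equation `v (Z (P+Q)) ≤ v (X (P+Q))`:
if `v X3 < v Z3` then from `v (X3 X4) ≥ v (Z3 Z4)` we get `v X4 > v Z4`, hence
`v (X3 Z4 + Z3 X4) = v (Z3 X4) > v (X3 X4)`, contradiction with `v S ≤ v N`.  Same for the other.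
`E0_two`: `law P P` with `Z 0 = 0`: `N = c X(2P) X(0)`, `S = c Z(2P) X(0)`, divide by `Z(P)⁴`;
`x⁴ - 2A x² - 8B x + A² = (3x²+A)² - 8x f`, `f = x³ + A x + B`.
`pow_le`: values `< w^n` of nonzero elements are `≤ w^(n+1)`.  `sq_odd`: `v (y²)` is an even
power of `w`.
`E0_three`: `P` not in `E0`, `Q = 2 P` not in `E0`, `x = X P / Z P`, `x2 = X Q / Z Q`:
`law Q P`: if `v (4B + 2 (x + x2) (x x2 + A)) ≥ v (x - x2)²` then `E0 (3 P)`
(`x = x2` gives `Z (3P) = 0`; otherwise `v (x3 + x) ≥ 1 > v x`).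
`x_two` needs `2 ≠ 0` (in characteristic two `Z (2P) = 0`).
-/

namespace Pool.Agent.Helper86.LK

variable {G K : Type*} [AddCommGroup G] [Field K] {A B : K} {X Z : G → K}
  {v : AbsoluteValue K ℝ} {w : ℝ}

theorem Disc.two_ne (d : Disc v w) : (2 : K) ≠ 0 := by
  intro h
  have h1 := d.two
  rw [h, map_zero] at h1
  exact zero_ne_one h1

theorem Disc.three_ne (d : Disc v w) : (3 : K) ≠ 0 := by
  intro h
  have h1 := d.three
  rw [h, map_zero] at h1
  exact zero_ne_one h1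

private theorem KA_nat (hv : IsNonarchimedean v) (n : ℕ) : v (n : K) ≤ 1 := by
  induction n with
  | zero => simp
  | succ n ih =>
    rw [Nat.cast_succ]
    refine (hv _ _).trans (max_le ih ?_)
    rw [map_one]

private theorem KA_two (hv : IsNonarchimedean v) : v (2 : K) ≤ 1 := by
  have h := KA_nat (K := K) hv 2
  exact_mod_cast h

private theorem KA_four (hv : IsNonarchimedean v) : v (4 : K) ≤ 1 := by
  have h := KA_nat (K := K) hv 4
  exact_mod_cast h

private theorem KA_eq (hv : IsNonarchimedean v) {a b : K} (h : v b < v a) : v (a + b) = v a := by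
  apply le_antisymm
  · exact (hv a b).trans (max_le le_rfl h.le)
  · by_contra hcon
    rw [not_le] at hcon
    have h1 : a = (a + b) + -b := by ring
    have h2 := hv (a + b) (-b)
    rw [← h1, map_neg_eq_map] at h2
    exact absurd h2 (not_le.2 (max_lt hcon h))

private theorem KA_one (hv : IsNonarchimedean v) {x3 z3 x4 z4 : K} (hX : x3 * x4 ≠ 0)
    (h1 : v (x3 * z4 + z3 * x4) ≤ v (x3 * x4)) (h2 : v (z3 * z4) ≤ v (x3 * x4)) :
    v z3 ≤ v x3 := by
  by_contra hcon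
  rw [not_le] at hcon
  have hx3 : 0 < v x3 := v.pos (left_ne_zero_of_mul hX)
  have hx4 : 0 < v x4 := v.pos (right_ne_zero_of_mul hX)
  have hz3 : 0 < v z3 := hx3.trans hcon
  rw [map_mul, map_mul] at h2
  have h3 : v z4 < v x4 := by
    by_contra h
    rw [not_lt] at h
    have h4 : v x3 * v x4 < v z3 * v z4 := by
      calc v x3 * v x4 < v z3 * v x4 := mul_lt_mul_of_pos_right hcon hx4
        _ ≤ v z3 * v z4 := mul_le_mul_of_nonneg_left h hz3.le
    exact absurd h2 (not_le.2 h4)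
  have h5 : v (x3 * z4) < v (z3 * x4) := by
    rw [map_mul, map_mul]
    calc v x3 * v z4 ≤ v x3 * v x4 := mul_le_mul_of_nonneg_left h3.le hx3.le
      _ < v z3 * v x4 := mul_lt_mul_of_pos_right hcon hx4
  rw [add_comm, KA_eq hv h5, map_mul, map_mul] at h1
  exact absurd h1 (not_le.2 (mul_lt_mul_of_pos_right hcon hx4))

private theorem KA_X (h : Kum A B X Z) {P : G} (hP : E0 v X Z P) : X P ≠ 0 := by
  intro h0
  unfold E0 at hP
  rw [h0, map_zero] at hP
  have h1 : v (Z P) = 0 := le_antisymm hP (v.nonneg _)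
  rcases h.ne P with h2 | h2
  · exact h2 h0
  · exact h2 (v.eq_zero.1 h1)

theorem E0_add (h : Kum A B X Z) (hv : IsNonarchimedean v) (hA : v A < 1) (hB : v B < 1)
    {P Q : G} (hP : E0 v X Z P) (hQ : E0 v X Z Q) : E0 v X Z (P + Q) ∧ E0 v X Z (P - Q) := by
  obtain ⟨c, hc, hN, hS, hD⟩ := h.law P Q
  have hX1 := KA_X h hP
  have hX2 := KA_X h hQ
  unfold E0 at hP hQ ⊢
  have p1 : 0 < v (X P) := v.pos hX1
  have p2 : 0 < v (X Q) := v.pos hX2
  have hM : 0 < v (X P) * v (X Q) := mul_pos p1 p2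
  have q1 := v.nonneg (Z P)
  have q2 := v.nonneg (Z Q)
  have hzz : v (Z P * Z Q) ≤ v (X P) * v (X Q) := by
    rw [map_mul]
    exact mul_le_mul hP hQ q2 p1.le
  have hxz : v (X P * Z Q) ≤ v (X P) * v (X Q) := by
    rw [map_mul]
    exact mul_le_mul_of_nonneg_left hQ p1.le
  have hzx : v (Z P * X Q) ≤ v (X P) * v (X Q) := by
    rw [map_mul]
    exact mul_le_mul_of_nonneg_right hP p2.le
  have hsum : v (X P * Z Q + Z P * X Q) ≤ v (X P) * v (X Q) := (hv _ _).trans (max_le hxz hzx)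
  have hAz : v (A * (Z P * Z Q)) < v (X P) * v (X Q) := by
    rw [map_mul]
    calc v A * v (Z P * Z Q) ≤ v A * (v (X P) * v (X Q)) :=
          mul_le_mul_of_nonneg_left hzz (v.nonneg _)
      _ < 1 * (v (X P) * v (X Q)) := mul_lt_mul_of_pos_right hA hM
      _ = _ := one_mul _
  -- the form `N`
  have hN1 : v (X P * X Q - A * (Z P * Z Q)) = v (X P) * v (X Q) := by
    rw [sub_eq_add_neg, KA_eq hv (by rw [map_neg_eq_map, map_mul v (X P)]; exact hAz), map_mul]
  have hB4 : v (4 * B * (X P * Z Q + Z P * X Q) * (Z P * Z Q)) <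
      v ((X P * X Q - A * (Z P * Z Q)) ^ 2) := by
    rw [map_pow, hN1, map_mul, map_mul, map_mul]
    calc v 4 * v B * v (X P * Z Q + Z P * X Q) * v (Z P * Z Q)
        ≤ 1 * v B * (v (X P) * v (X Q)) * (v (X P) * v (X Q)) := by
          apply mul_le_mul _ hzz (v.nonneg _) (by positivity)
          apply mul_le_mul _ hsum (v.nonneg _) (by positivity)
          exact mul_le_mul_of_nonneg_right (KA_four hv) (v.nonneg _)
      _ = v B * (v (X P) * v (X Q)) ^ 2 := by ring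
      _ < 1 * (v (X P) * v (X Q)) ^ 2 := mul_lt_mul_of_pos_right hB (by positivity)
      _ = _ := one_mul _
  have hNv : v (c * (X (P + Q) * X (P - Q))) = (v (X P) * v (X Q)) ^ 2 := by
    rw [← hN, sub_eq_add_neg, KA_eq hv (by rw [map_neg_eq_map]; exact hB4), map_pow, hN1]
  have hSv : v (c * (X (P + Q) * Z (P - Q) + Z (P + Q) * X (P - Q))) ≤
      (v (X P) * v (X Q)) ^ 2 := by
    rw [← hS]
    refine (hv _ _).trans (max_le ?_ ?_)
    · rw [map_mul, map_mul]
      have h1 : v (X P * X Q + A * (Z P * Z Q)) = v (X P) * v (X Q) := by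
        rw [KA_eq hv (by rw [map_mul v (X P)]; exact hAz), map_mul]
      rw [h1]
      calc v 2 * v (X P * Z Q + Z P * X Q) * (v (X P) * v (X Q))
          ≤ 1 * (v (X P) * v (X Q)) * (v (X P) * v (X Q)) := by
            apply mul_le_mul_of_nonneg_right _ hM.le
            exact mul_le_mul (KA_two hv) hsum (v.nonneg _) zero_le_one
        _ = _ := by ring
    · rw [map_mul, map_mul, map_pow]
      calc v 4 * v B * v (Z P * Z Q) ^ 2 ≤ 1 * 1 * (v (X P) * v (X Q)) ^ 2 := by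
            apply mul_le_mul _ (pow_le_pow_left₀ (v.nonneg _) hzz 2) (by positivity) (by norm_num)
            exact mul_le_mul (KA_four hv) hB.le (v.nonneg _) zero_le_one
        _ = _ := by ring
  have hDv : v (c * (Z (P + Q) * Z (P - Q))) ≤ (v (X P) * v (X Q)) ^ 2 := by
    rw [← hD, map_pow]
    apply pow_le_pow_left₀ (v.nonneg _)
    rw [sub_eq_add_neg]
    refine (hv _ _).trans (max_le hxz ?_)
    rw [map_neg_eq_map]
    exact hzx
  have hcv : 0 < v c := v.pos hc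
  rw [← hNv, map_mul, map_mul v c] at hSv hDv
  have hS' := le_of_mul_le_mul_left hSv hcv
  have hD' := le_of_mul_le_mul_left hDv hcv
  have hXX : X (P + Q) * X (P - Q) ≠ 0 := by
    intro h0
    rw [h0, mul_zero, map_zero] at hNv
    have : (0 : ℝ) < (v (X P) * v (X Q)) ^ 2 := by positivity
    linarith
  refine ⟨KA_one hv hXX hS' hD', KA_one (x3 := X (P - Q)) (z3 := Z (P - Q)) (x4 := X (P + Q))
    (z4 := Z (P + Q)) hv (by rw [mul_comm]; exact hXX) ?_ ?_⟩
  · have e1 : X (P - Q) * Z (P + Q) + Z (P - Q) * X (P + Q) =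
        X (P + Q) * Z (P - Q) + Z (P + Q) * X (P - Q) := by ring
    rw [e1, mul_comm (X (P - Q))]
    exact hS'
  · rw [mul_comm (Z (P - Q)), mul_comm (X (P - Q))]
    exact hD'

theorem E0_nsmul (h : Kum A B X Z) (hv : IsNonarchimedean v) (hA : v A < 1) (hB : v B < 1)
    {P : G} (hP : E0 v X Z P) (n : ℕ) : E0 v X Z (n • P) := by
  induction n with
  | zero =>
    rw [zero_nsmul]
    unfold E0
    rw [h.zero, map_zero]
    exact v.nonneg _
  | succ n ih =>
    rw [succ_nsmul]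
    exact (E0_add h hv hA hB ih hP).1

private theorem KA_dbl (h : Kum A B X Z) (P : G) (hZ : Z P ≠ 0) : ∃ c : K, c ≠ 0 ∧
    X (2 • P) * c = (3 * (X P / Z P) ^ 2 + A) ^ 2 -
        8 * (X P / Z P) * ((X P / Z P) ^ 3 + A * (X P / Z P) + B) ∧
    Z (2 • P) * c = 4 * ((X P / Z P) ^ 3 + A * (X P / Z P) + B) := by
  obtain ⟨c, hc, hN, hS, -⟩ := h.law P P
  rw [sub_self, h.zero, ← two_nsmul] at hS
  rw [sub_self, ← two_nsmul] at hN
  have hX0 : X 0 ≠ 0 := by
    rcases h.ne 0 with h1 | h1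
    · exact h1
    · exact absurd h.zero h1
  have hx : X P = (X P / Z P) * Z P := (div_mul_cancel₀ _ hZ).symm
  set x := X P / Z P with hxdef
  refine ⟨c * X 0 / Z P ^ 4, div_ne_zero (mul_ne_zero hc hX0) (pow_ne_zero _ hZ), ?_, ?_⟩
  · rw [mul_div_assoc', div_eq_iff (pow_ne_zero _ hZ)]
    have e1 : X (2 • P) * (c * X 0) = c * (X (2 • P) * X 0) := by ring
    rw [e1, ← hN, hx]
    ring
  · rw [mul_div_assoc', div_eq_iff (pow_ne_zero _ hZ)]
    have e1 : Z (2 • P) * (c * X 0) = c * (X (2 • P) * 0 + Z (2 • P) * X 0) := by ring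
    rw [e1, ← hS, hx]
    ring

theorem E0_two (h : Kum A B X Z) (P : G) (hZ : Z P ≠ 0) :
    E0 v X Z (2 • P) ↔ v (4 * ((X P / Z P) ^ 3 + A * (X P / Z P) + B)) ≤
      v ((3 * (X P / Z P) ^ 2 + A) ^ 2 -
        8 * (X P / Z P) * ((X P / Z P) ^ 3 + A * (X P / Z P) + B)) := by
  obtain ⟨c, hc, h1, h2⟩ := KA_dbl h P hZ
  rw [← h1, ← h2, map_mul, map_mul]
  unfold E0
  exact (mul_le_mul_iff_of_pos_right (v.pos hc)).symm

/-- The coordinate of the double. -/
theorem x_two (h : Kum A B X Z) (h2 : (2 : K) ≠ 0) (P : G) (hZ : Z P ≠ 0)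
    (hy : (X P / Z P) ^ 3 + A * (X P / Z P) + B ≠ 0) : Z (2 • P) ≠ 0 ∧
    X (2 • P) / Z (2 • P) = ((3 * (X P / Z P) ^ 2 + A) ^ 2 -
        8 * (X P / Z P) * ((X P / Z P) ^ 3 + A * (X P / Z P) + B)) /
      (4 * ((X P / Z P) ^ 3 + A * (X P / Z P) + B)) := by
  obtain ⟨c, hc, h3, h4⟩ := KA_dbl h P hZ
  have h5 : (4 : K) ≠ 0 := by
    have e : (4 : K) = 2 * 2 := by norm_num
    rw [e]
    exact mul_ne_zero h2 h2
  have h6 : Z (2 • P) ≠ 0 := by
    intro h0
    rw [h0, zero_mul] at h4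
    exact mul_ne_zero h5 hy h4.symm
  refine ⟨h6, ?_⟩
  rw [← h3, ← h4, mul_div_mul_right _ _ hc]

theorem E0_three (h : Kum A B X Z) (hv : IsNonarchimedean v) (P : G) (hZ : Z P ≠ 0)
    (hZ2 : Z (2 • P) ≠ 0) (hx : v (X P / Z P) < 1)
    (hS : v (X P / Z P - X (2 • P) / Z (2 • P)) ^ 2 ≤
      v (2 * (X P / Z P + X (2 • P) / Z (2 • P)) *
        (X P / Z P * (X (2 • P) / Z (2 • P)) + A) + 4 * B)) : E0 v X Z (3 • P) := by
  obtain ⟨c, hc, -, h2, h3⟩ := h.law (2 • P) P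
  have e3 : 2 • P + P = 3 • P := by
    rw [← succ_nsmul]
  have e1 : 2 • P - P = P := by
    rw [two_nsmul, add_sub_cancel_right]
  rw [e3, e1] at h2 h3
  have hx1 : X P = (X P / Z P) * Z P := (div_mul_cancel₀ _ hZ).symm
  have hx2 : X (2 • P) = (X (2 • P) / Z (2 • P)) * Z (2 • P) := (div_mul_cancel₀ _ hZ2).symm
  have k2 : (Z (2 • P) * Z P) ^ 2 * (2 * (X P / Z P + X (2 • P) / Z (2 • P)) *
        (X P / Z P * (X (2 • P) / Z (2 • P)) + A) + 4 * B) =
      c * Z P * (X (3 • P) + Z (3 • P) * (X P / Z P)) := by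
    have e4 : c * Z P * (X (3 • P) + Z (3 • P) * (X P / Z P)) =
        c * (X (3 • P) * Z P + Z (3 • P) * (X P / Z P * Z P)) := by ring
    rw [e4, ← hx1, ← h2]
    generalize X P / Z P = x at hx1 ⊢
    generalize X (2 • P) / Z (2 • P) = x2 at hx2 ⊢
    rw [hx1, hx2]
    ring
  have k3 : (Z (2 • P) * Z P) ^ 2 * (X P / Z P - X (2 • P) / Z (2 • P)) ^ 2 =
      c * Z P * Z (3 • P) := by
    have e4 : c * Z P * Z (3 • P) = c * (Z (3 • P) * Z P) := by ring
    rw [e4, ← h3]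
    generalize X P / Z P = x at hx1 ⊢
    generalize X (2 • P) / Z (2 • P) = x2 at hx2 ⊢
    rw [hx1, hx2]
    ring
  have hp : 0 < v (c * Z P) := v.pos (mul_ne_zero hc hZ)
  have h4 : v (Z (3 • P)) ≤ v (X (3 • P) + Z (3 • P) * (X P / Z P)) := by
    have h5 : v (c * Z P) * v (Z (3 • P)) ≤
        v (c * Z P) * v (X (3 • P) + Z (3 • P) * (X P / Z P)) := by
      rw [← map_mul, ← map_mul, ← k3, ← k2, map_mul, map_mul, map_pow v (_ - _)]
      exact mul_le_mul_of_nonneg_left hS (v.nonneg _)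
    exact le_of_mul_le_mul_left h5 hp
  unfold E0
  by_cases h0 : Z (3 • P) = 0
  · rw [h0, map_zero]
    exact v.nonneg _
  have hz : 0 < v (Z (3 • P)) := v.pos h0
  have h6 : v (Z (3 • P) * (X P / Z P)) < v (Z (3 • P)) := by
    rw [map_mul]
    calc v (Z (3 • P)) * v (X P / Z P) < v (Z (3 • P)) * 1 := mul_lt_mul_of_pos_left hx hz
      _ = _ := mul_one _
  rcases le_max_iff.1 (h4.trans (hv _ _)) with h7 | h7
  · exact h7
  · exact absurd h7 (not_le.2 h6)

/-- Not in `E0`: affine with small coordinate. -/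
theorem not_E0 (h : Kum A B X Z) {P : G} (hP : ¬ E0 v X Z P) :
    Z P ≠ 0 ∧ v (X P / Z P) < 1 := by
  unfold E0 at hP
  rw [not_le] at hP
  have h1 : 0 < v (Z P) := (v.nonneg _).trans_lt hP
  refine ⟨fun h0 => ?_, ?_⟩
  · rw [h0, map_zero] at h1
    exact lt_irrefl _ h1
  · rw [map_div₀, div_lt_one h1]
    exact hP

theorem pow_le (d : Disc v w) {x : K} {n : ℤ} (hx : v x < w ^ n) : v x ≤ w ^ (n + 1) := by
  by_cases h0 : x = 0
  · rw [h0, map_zero]
    exact zpow_nonneg d.w0.le _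
  · obtain ⟨k, hk⟩ := d.pow x h0
    rw [hk] at hx ⊢
    have h1 : n < k := (zpow_lt_zpow_iff_right_of_lt_one₀ d.w0 d.w1).1 hx
    exact (zpow_le_zpow_iff_right_of_lt_one₀ d.w0 d.w1).2 (by omega)

theorem sq_odd (d : Disc v w) {y : K} {n : ℤ} (hy : v (y ^ 2) = w ^ (2 * n + 1)) : False := by
  have h0 : y ≠ 0 := by
    rintro rfl
    rw [zero_pow two_ne_zero, map_zero] at hy
    have := zpow_pos d.w0 (2 * n + 1)
    linarith
  obtain ⟨k, hk⟩ := d.pow y h0
  rw [map_pow, hk, ← zpow_natCast, ← zpow_mul] at hy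
  have h1 := (zpow_right_strictAnti₀ d.w0 d.w1).injective hy
  push_cast at h1
  omega

end Pool.Agent.Helper86.LK
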