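import Pool.Agent.Helper86.LK.KA

/-!
The easy cases.  Let `P` be not in `E0`, `x = X P / Z P`, `v x ≤ w`, `y² = x³ + A x + B`.

case_1 (`v B = w`): `v (y²) = w`, impossible.
case_2 (`v A = w`, `v B ≤ w²`): `v (y²) ≤ w²`, `v ((3x²+A)²) = w²`, `v (8 x y²) ≤ w³`, so `E0 (2P)`.
case_3 (`v A ≤ w²`, `v B = w²`): `v (y²) = w²`, `v (3x²+A) ≤ w²`, so `v (num) ≤ w³`,
`v (x(2P)) ≤ w`; `v (4B + 2 (x+x2) (x x2 + A)) = w²`, `v (x - x2)² ≤ w²`: `E0_three`.
-/

namespace Pool.Agent.Helper86.LK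

variable {G K : Type*} [AddCommGroup G] [Field K] {A B : K} {X Z : G → K}
  {v : AbsoluteValue K ℝ} {w : ℝ}

private theorem kb_le (hv : IsNonarchimedean v) {a b : K} {c : ℝ} (ha : v a ≤ c) (hb : v b ≤ c) :
    v (a + b) ≤ c := (hv a b).trans (max_le ha hb)

private theorem kb_sub (hv : IsNonarchimedean v) {a b : K} {c : ℝ} (ha : v a ≤ c) (hb : v b ≤ c) :
    v (a - b) ≤ c := by
  rw [sub_eq_add_neg]
  exact kb_le hv ha (by rwa [v.map_neg])

private theorem kb_eq (hv : IsNonarchimedean v) {a b : K} (h : v a < v b) : v (a + b) = v b := by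
  apply le_antisymm
  · exact kb_le hv h.le le_rfl
  · have h1 : v b ≤ max (v (a + b)) (v a) := by
      have h2 := hv (a + b) (-a)
      rw [v.map_neg, add_neg_cancel_comm] at h2
      exact h2
    rcases le_max_iff.1 h1 with h2 | h2
    · exact h2
    · exact absurd h2 (not_le.2 h)

private theorem kb_x (h : Kum A B X Z) (d : Disc v w) {P : G} (hP : ¬ E0 v X Z P) :
    Z P ≠ 0 ∧ v (X P / Z P) ≤ w := by
  obtain ⟨h1, h2⟩ := not_E0 h hP
  refine ⟨h1, ?_⟩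
  have h3 := pow_le d (x := X P / Z P) (n := 0) (by rwa [zpow_zero])
  rwa [zero_add, zpow_one] at h3

private theorem kb_four (d : Disc v w) : v 4 = 1 := by
  rw [show (4 : K) = 2 * 2 by norm_num, v.map_mul, d.two, one_mul]

private theorem kb_eight (d : Disc v w) : v 8 = 1 := by
  rw [show (8 : K) = 2 * 4 by norm_num, v.map_mul, d.two, kb_four d, one_mul]

theorem case_1 (h : Kum A B X Z) (d : Disc v w) (hA : v A ≤ w) (hB : v B = w) (P : G) :
    E0 v X Z P := by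
  by_contra hP
  obtain ⟨hZ, hx⟩ := kb_x h d hP
  obtain ⟨y, hy⟩ := h.eqn P hZ
  have w0 := d.w0
  have w1 := d.w1
  have hx0 : 0 ≤ v (X P / Z P) := v.nonneg _
  have h1 : v ((X P / Z P) ^ 3 + A * (X P / Z P)) ≤ w ^ 2 := by
    apply kb_le d.na
    · rw [map_pow]
      calc v (X P / Z P) ^ 3 ≤ w ^ 3 := pow_le_pow_left₀ hx0 hx 3
        _ ≤ w ^ 2 := by nlinarith [sq_nonneg w]
    · rw [v.map_mul]
      calc v A * v (X P / Z P) ≤ w * w := mul_le_mul hA hx hx0 w0.le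
        _ = w ^ 2 := by ring
  have h2 : v (y ^ 2) = w := by
    rw [hy, kb_eq d.na (lt_of_le_of_lt h1 (by rw [hB]; nlinarith)), hB]
  exact sq_odd d (y := y) (n := 0) (by rw [h2]; simp)

theorem case_2 (h : Kum A B X Z) (d : Disc v w) (hA : v A = w) (hB : v B ≤ w ^ 2) (P : G)
    (hP : ¬ E0 v X Z P) : E0 v X Z (2 • P) := by
  obtain ⟨hZ, hx⟩ := kb_x h d hP
  rw [E0_two h P hZ]
  obtain ⟨x, hxx⟩ : ∃ x, x = X P / Z P := ⟨_, rfl⟩
  rw [← hxx] at hx ⊢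
  have w0 := d.w0
  have w1 := d.w1
  have hx0 : 0 ≤ v x := v.nonneg _
  obtain ⟨f, hf⟩ : ∃ f, f = x ^ 3 + A * x + B := ⟨_, rfl⟩
  rw [← hf]
  have hfv : v f ≤ w ^ 2 := by
    rw [hf]
    apply kb_le d.na
    · apply kb_le d.na
      · rw [map_pow]
        calc v x ^ 3 ≤ w ^ 3 := pow_le_pow_left₀ hx0 hx 3
          _ ≤ w ^ 2 := by nlinarith [sq_nonneg w]
      · rw [v.map_mul, hA]
        calc w * v x ≤ w * w := mul_le_mul_of_nonneg_left hx w0.le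
          _ = w ^ 2 := by ring
    · exact hB
  have h1 : v (3 * x ^ 2 + A) = w := by
    have h2 : v (3 * x ^ 2) ≤ w ^ 2 := by
      rw [v.map_mul, d.three, one_mul, map_pow]
      exact pow_le_pow_left₀ hx0 hx 2
    rw [kb_eq d.na (lt_of_le_of_lt h2 (by rw [hA]; nlinarith)), hA]
  have h2 : v (8 * x * f) ≤ w ^ 3 := by
    rw [v.map_mul, v.map_mul, kb_eight d, one_mul]
    calc v x * v f ≤ w * w ^ 2 := mul_le_mul hx hfv (v.nonneg _) w0.le
      _ = w ^ 3 := by ring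
  have h3 : v ((3 * x ^ 2 + A) ^ 2 - 8 * x * f) = w ^ 2 := by
    rw [sub_eq_add_neg, add_comm, kb_eq d.na, map_pow, h1]
    rw [v.map_neg, map_pow, h1]
    refine lt_of_le_of_lt h2 ?_
    nlinarith [pow_pos w0 2]
  rw [h3, v.map_mul, kb_four d, one_mul]
  exact hfv

theorem case_3 (h : Kum A B X Z) (d : Disc v w) (hA : v A ≤ w ^ 2) (hB : v B = w ^ 2) (P : G)
    (hP : ¬ E0 v X Z P) : E0 v X Z (3 • P) := by
  obtain ⟨hZ, hx⟩ := kb_x h d hP
  have htwo := x_two h d.two_ne P hZ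
  have hthree := E0_three h d.na P hZ
  obtain ⟨x, hxx⟩ : ∃ x, x = X P / Z P := ⟨_, rfl⟩
  rw [← hxx] at hx htwo hthree
  have w0 := d.w0
  have w1 := d.w1
  have hx0 : 0 ≤ v x := v.nonneg _
  obtain ⟨f, hf⟩ : ∃ f, f = x ^ 3 + A * x + B := ⟨_, rfl⟩
  rw [← hf] at htwo
  have hw2 : 0 < w ^ 2 := pow_pos w0 2
  have hw3 : w ^ 3 < w ^ 2 := by nlinarith
  have hfv : v f = w ^ 2 := by
    have h1 : v (x ^ 3 + A * x) ≤ w ^ 3 := by
      apply kb_le d.na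
      · rw [map_pow]
        exact pow_le_pow_left₀ hx0 hx 3
      · rw [v.map_mul]
        calc v A * v x ≤ w ^ 2 * w := mul_le_mul hA hx hx0 hw2.le
          _ = w ^ 3 := by ring
    rw [hf, kb_eq d.na (lt_of_le_of_lt h1 (by rw [hB]; exact hw3)), hB]
  have hf0 : f ≠ 0 := by
    intro h0
    rw [h0, v.map_zero] at hfv
    linarith
  obtain ⟨hZ2, hX2⟩ := htwo hf0
  have h1 : v (3 * x ^ 2 + A) ≤ w ^ 2 := by
    apply kb_le d.na _ hA
    rw [v.map_mul, d.three, one_mul, map_pow]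
    exact pow_le_pow_left₀ hx0 hx 2
  have h2 : v ((3 * x ^ 2 + A) ^ 2 - 8 * x * f) ≤ w ^ 3 := by
    apply kb_sub d.na
    · rw [map_pow]
      calc v (3 * x ^ 2 + A) ^ 2 ≤ (w ^ 2) ^ 2 := pow_le_pow_left₀ (v.nonneg _) h1 2
        _ = w ^ 3 * w := by ring
        _ ≤ w ^ 3 := by nlinarith [pow_pos w0 3]
    · rw [v.map_mul, v.map_mul, kb_eight d, one_mul, hfv]
      calc v x * w ^ 2 ≤ w * w ^ 2 := mul_le_mul_of_nonneg_right hx hw2.le
        _ = w ^ 3 := by ring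
  obtain ⟨x2, hx2⟩ : ∃ x2, x2 = X (2 • P) / Z (2 • P) := ⟨_, rfl⟩
  rw [← hx2] at hX2 hthree
  have hx2v : v x2 ≤ w := by
    rw [hX2, map_div₀, v.map_mul, kb_four d, one_mul, hfv, div_le_iff₀ hw2]
    calc _ ≤ w ^ 3 := h2
      _ = w * w ^ 2 := by ring
  have hx20 : 0 ≤ v x2 := v.nonneg _
  refine hthree hZ2 (lt_of_le_of_lt hx w1) ?_
  have h3 : v (2 * (x + x2) * (x * x2 + A)) ≤ w ^ 3 := by
    rw [v.map_mul, v.map_mul, d.two, one_mul]
    have h4 : v (x + x2) ≤ w := kb_le d.na hx hx2v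
    have h5 : v (x * x2 + A) ≤ w ^ 2 := by
      apply kb_le d.na _ hA
      rw [v.map_mul]
      calc v x * v x2 ≤ w * w := mul_le_mul hx hx2v hx20 w0.le
        _ = w ^ 2 := by ring
    calc v (x + x2) * v (x * x2 + A) ≤ w * w ^ 2 := mul_le_mul h4 h5 (v.nonneg _) w0.le
      _ = w ^ 3 := by ring
  have h6 : v (4 * B) = w ^ 2 := by rw [v.map_mul, kb_four d, one_mul, hB]
  rw [kb_eq d.na (lt_of_le_of_lt h3 (by rw [h6]; exact hw3)), h6]
  exact pow_le_pow_left₀ (v.nonneg _) (kb_sub d.na hx hx2v) 2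

end Pool.Agent.Helper86.LK
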