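import Pool.Agent.Helper86.LH.Fej

/-!
The weights of `LH/Fej.lean` with one more property: their sum is at least `M - 2`.

PROOF.  `∑ c m = ∑ 2 (1 - m/M) + ∑ 2 (1 - m/M) cos (2 π m ψ) = (M - 1) + (F(ψ) - 1) ≥ M - 2`
(Fejer kernel `F ≥ 0`).  Repeat the proof of `LH.weights` with the same `c`.
-/

namespace Pool.Agent.Helper86.LK

open Pool.Agent.Helper86.LH

open Finset in
private theorem KF_sq (α : ℝ) (M : ℕ) :
    (M : ℝ) + 2 * ∑ m ∈ Icc 1 M, ((M : ℝ) - m) * Real.cos (m * α) =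
      (∑ j ∈ range M, Real.cos (j * α)) ^ 2 + (∑ j ∈ range M, Real.sin (j * α)) ^ 2 := by
  induction M with
  | zero => simp
  | succ M ih =>
    have h1 : ∑ j ∈ range M, Real.cos (((M : ℝ) - j) * α) =
        ∑ m ∈ Icc 1 M, Real.cos (m * α) := by
      have h2 : ∑ m ∈ Icc 1 M, Real.cos (m * α) =
          ∑ j ∈ range M, Real.cos (((j + 1 : ℕ) : ℝ) * α) := by
        rw [← Finset.Ico_succ_right_eq_Icc, Finset.sum_Ico_eq_sum_range]
        refine Finset.sum_congr (by simp) fun j _ => ?_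
        rw [Nat.add_comm]
      rw [h2, ← Finset.sum_range_reflect]
      refine Finset.sum_congr rfl fun j hj => ?_
      have hj' : j < M := Finset.mem_range.1 hj
      have h3 : ((M - 1 - j : ℕ) : ℝ) + (j + 1 : ℕ) = M := by
        exact_mod_cast (by omega : M - 1 - j + (j + 1) = M)
      congr 2
      linarith
    have h2 : ∑ j ∈ range M, Real.cos (((M : ℝ) - j) * α) =
        Real.cos (M * α) * ∑ j ∈ range M, Real.cos (j * α) +
          Real.sin (M * α) * ∑ j ∈ range M, Real.sin (j * α) := by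
      rw [Finset.mul_sum, Finset.mul_sum, ← Finset.sum_add_distrib]
      refine Finset.sum_congr rfl fun j _ => ?_
      rw [sub_mul, Real.cos_sub]
    have h3 : ∑ m ∈ Icc 1 (M + 1), (((M + 1 : ℕ) : ℝ) - m) * Real.cos (m * α) =
        ∑ m ∈ Icc 1 M, ((M : ℝ) - m) * Real.cos (m * α) + ∑ m ∈ Icc 1 M, Real.cos (m * α) := by
      rw [Finset.sum_Icc_succ_top (by omega), ← Finset.sum_add_distrib, sub_self, zero_mul,
        add_zero]
      refine Finset.sum_congr rfl fun m _ => ?_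
      push_cast
      ring
    rw [h3, Finset.sum_range_succ, Finset.sum_range_succ]
    have h4 := Real.sin_sq_add_cos_sq (M * α)
    push_cast
    rw [← h1, h2]
    linear_combination ih - h4

/-- The Fejer sum without its constant term. -/
private noncomputable def KF_FF (M : ℕ) (φ : ℝ) : ℝ :=
  ∑ m ∈ Finset.Icc 1 M, 2 * (1 - (m : ℝ) / M) * Real.cos (m * (2 * Real.pi * φ))

private theorem KF_FFge {M : ℕ} (hM : 1 ≤ M) (φ : ℝ) : -1 ≤ KF_FF M φ := by
  have hM0 : (0 : ℝ) < M := by exact_mod_cast hM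
  have h1 := KF_sq (2 * Real.pi * φ) M
  have h2 : (M : ℝ) * KF_FF M φ =
      2 * ∑ m ∈ Finset.Icc 1 M, ((M : ℝ) - m) * Real.cos (m * (2 * Real.pi * φ)) := by
    rw [KF_FF, Finset.mul_sum, Finset.mul_sum]
    refine Finset.sum_congr rfl fun m _ => ?_
    field_simp
  have h3 : 0 ≤ (M : ℝ) * (1 + KF_FF M φ) := by
    rw [mul_add, mul_one, h2, h1]
    positivity
  have h4 := nonneg_of_mul_nonneg_right h3 hM0
  linarith

/-- Sums of powers. -/
private theorem KF_sums (M : ℕ) :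
    ∑ m ∈ Finset.Icc 1 M, (m : ℝ) = M * (M + 1) / 2 ∧
    ∑ m ∈ Finset.Icc 1 M, (m : ℝ) ^ 2 = M * (M + 1) * (2 * M + 1) / 6 ∧
    ∑ m ∈ Finset.Icc 1 M, (m : ℝ) ^ 3 = (M * (M + 1) / 2) ^ 2 := by
  induction M with
  | zero => simp
  | succ M ih =>
    obtain ⟨h1, h2, h3⟩ := ih
    refine ⟨?_, ?_, ?_⟩
    · rw [Finset.sum_Icc_succ_top (by omega), h1]
      push_cast
      ring
    · rw [Finset.sum_Icc_succ_top (by omega), h2]
      push_cast
      ring
    · rw [Finset.sum_Icc_succ_top (by omega), h3]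
      push_cast
      ring

private theorem KF_one {M : ℕ} (hM : 1 ≤ M) :
    ∑ m ∈ Finset.Icc 1 M, (1 - (m : ℝ) / M) = (M - 1) / 2 := by
  have hM0 : (M : ℝ) ≠ 0 := by positivity
  rw [Finset.sum_sub_distrib, ← Finset.sum_div, (KF_sums M).1, Finset.sum_const, Nat.card_Icc,
    nsmul_eq_mul, mul_one, Nat.add_sub_cancel]
  field_simp
  ring

private theorem KF_two {M : ℕ} (hM : 1 ≤ M) :
    ∑ m ∈ Finset.Icc 1 M, (1 - (m : ℝ) / M) * (m : ℝ) ^ 2 = ((M : ℝ) ^ 3 - M) / 12 := by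
  have hM0 : (M : ℝ) ≠ 0 := by positivity
  have h1 : ∀ m ∈ Finset.Icc 1 M, (1 - (m : ℝ) / M) * (m : ℝ) ^ 2 =
      (m : ℝ) ^ 2 - (m : ℝ) ^ 3 / M := fun m _ => by ring
  rw [Finset.sum_congr rfl h1, Finset.sum_sub_distrib, ← Finset.sum_div, (KF_sums M).2.1,
    (KF_sums M).2.2]
  field_simp
  ring

private theorem KF_FFzero {M : ℕ} (hM : 1 ≤ M) : KF_FF M 0 = M - 1 := by
  rw [KF_FF]
  simp only [mul_zero, Real.cos_zero, mul_one]
  rw [← Finset.mul_sum, KF_one hM]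
  ring

private theorem KF_hasSumB (x : ℝ) :
    HasSum (fun k : ℕ => 1 / (k : ℝ) ^ 2 * Real.cos (2 * Real.pi * k * x)) (Real.pi ^ 2 * B2 x) := by
  have h1 := hasSum_one_div_nat_pow_mul_cos (k := 1) one_ne_zero (x := Int.fract x)
    ⟨Int.fract_nonneg x, (Int.fract_lt_one x).le⟩
  have h2 : ((-1 : ℝ) ^ (1 + 1) * (2 * Real.pi) ^ (2 * 1) / 2 / (2 * 1).factorial *
      (Polynomial.map (algebraMap ℚ ℝ) (Polynomial.bernoulli (2 * 1))).eval (Int.fract x)) =
      Real.pi ^ 2 * B2 x := by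
    simp_rw [Polynomial.bernoulli, Finset.sum_range_succ, Polynomial.map_add,
      Polynomial.map_monomial, Polynomial.eval_add, Polynomial.eval_monomial]
    rw [Finset.sum_range_zero, _root_.bernoulli_one,
      bernoulli_eq_bernoulli'_of_ne_one zero_ne_one, bernoulli'_zero,
      bernoulli_eq_bernoulli'_of_ne_one (by decide : 2 ≠ 1), bernoulli'_two]
    simp [B2, Nat.factorial]
    ring
  rw [h2] at h1
  have h3 : (fun k : ℕ => 1 / (k : ℝ) ^ 2 * Real.cos (2 * Real.pi * k * x)) =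
      fun k : ℕ => 1 / (k : ℝ) ^ (2 * 1) * Real.cos (2 * Real.pi * k * Int.fract x) := by
    funext k
    have h4 : 2 * Real.pi * k * x =
        2 * Real.pi * k * Int.fract x + ((k * ⌊x⌋ : ℤ) : ℝ) * (2 * Real.pi) := by
      have h5 := Int.self_sub_floor x
      push_cast
      rw [← h5]
      ring
    rw [h4, Real.cos_add_int_mul_two_pi, mul_one]
  rw [h3]
  exact h1

/-- The inner sums. -/
private theorem KF_inner (M : ℕ) (ψ : ℝ) (k : ℕ) (θ : ℝ) :
    ∑ m ∈ Finset.Icc 1 M, 2 * (1 - (m : ℝ) / M) * (1 + Real.cos (m * (2 * Real.pi * ψ))) *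
        Real.cos (2 * Real.pi * k * (m * θ)) =
      KF_FF M (k * θ) + (KF_FF M (k * θ + ψ) + KF_FF M (k * θ - ψ)) / 2 := by
  rw [KF_FF, KF_FF, KF_FF, ← Finset.sum_add_distrib, Finset.sum_div, ← Finset.sum_add_distrib]
  refine Finset.sum_congr rfl fun m _ => ?_
  have h1 : (m : ℝ) * (2 * Real.pi * (k * θ + ψ)) =
      2 * Real.pi * k * (m * θ) + m * (2 * Real.pi * ψ) := by ring
  have h2 : (m : ℝ) * (2 * Real.pi * (k * θ - ψ)) =
      2 * Real.pi * k * (m * θ) - m * (2 * Real.pi * ψ) := by ring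
  have h3 : (m : ℝ) * (2 * Real.pi * (k * θ)) = 2 * Real.pi * k * (m * θ) := by ring
  rw [h1, h2, h3, Real.cos_add, Real.cos_sub]
  ring

private theorem KF_hasSum (M : ℕ) (ψ θ : ℝ) :
    HasSum (fun k : ℕ => 1 / (k : ℝ) ^ 2 *
        (KF_FF M (k * θ) + (KF_FF M (k * θ + ψ) + KF_FF M (k * θ - ψ)) / 2))
      (Real.pi ^ 2 * ∑ m ∈ Finset.Icc 1 M,
        2 * (1 - (m : ℝ) / M) * (1 + Real.cos (m * (2 * Real.pi * ψ))) * B2 (m * θ)) := by
  have h1 := hasSum_sum (s := Finset.Icc 1 M) fun m _ =>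
    (KF_hasSumB (m * θ)).mul_left (2 * (1 - (m : ℝ) / M) * (1 + Real.cos (m * (2 * Real.pi * ψ))))
  have h2 : (fun k : ℕ => 1 / (k : ℝ) ^ 2 *
        (KF_FF M (k * θ) + (KF_FF M (k * θ + ψ) + KF_FF M (k * θ - ψ)) / 2)) =
      fun k : ℕ => ∑ m ∈ Finset.Icc 1 M, 2 * (1 - (m : ℝ) / M) *
        (1 + Real.cos (m * (2 * Real.pi * ψ))) *
        (1 / (k : ℝ) ^ 2 * Real.cos (2 * Real.pi * k * (m * θ))) := by
    funext k
    rw [← KF_inner, Finset.mul_sum]
    exact Finset.sum_congr rfl fun m _ => by ring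
  rw [h2, Finset.mul_sum]
  convert! h1 using 1
  exact Finset.sum_congr rfl fun m _ => by ring

theorem weights2 (M : ℕ) (hM : 1 ≤ M) (ψ : ℝ) :
    ∃ c : ℕ → ℝ, (∀ m ∈ Finset.Icc 1 M, 0 ≤ c m) ∧
      ∑ m ∈ Finset.Icc 1 M, c m ≤ 2 * M ∧
      ∑ m ∈ Finset.Icc 1 M, c m * (m : ℝ) ^ 2 ≤ (M : ℝ) ^ 3 / 3 ∧
      (∀ θ : ℝ, -(1 / 3) ≤ ∑ m ∈ Finset.Icc 1 M, c m * B2 (m * θ)) ∧
      M / (2 * Real.pi ^ 2) - 1 / 3 ≤ ∑ m ∈ Finset.Icc 1 M, c m * B2 (m * ψ) ∧
      (M : ℝ) - 2 ≤ ∑ m ∈ Finset.Icc 1 M, c m := by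
  have hM0 : (0 : ℝ) < M := by exact_mod_cast hM
  have hpi : 0 < Real.pi ^ 2 := by positivity
  have hw : ∀ m ∈ Finset.Icc 1 M, 0 ≤ 1 - (m : ℝ) / M := fun m hm => by
    have h1 : (m : ℝ) ≤ M := by exact_mod_cast (Finset.mem_Icc.1 hm).2
    have h2 : (m : ℝ) / M ≤ 1 := (div_le_one hM0).2 h1
    linarith
  have hc4 : ∀ m ∈ Finset.Icc 1 M, 2 * (1 - (m : ℝ) / M) *
      (1 + Real.cos (m * (2 * Real.pi * ψ))) ≤ 4 * (1 - (m : ℝ) / M) := fun m hm => by
    have h1 := Real.cos_le_one (m * (2 * Real.pi * ψ))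
    have h2 := hw m hm
    nlinarith
  refine ⟨fun m => 2 * (1 - (m : ℝ) / M) * (1 + Real.cos (m * (2 * Real.pi * ψ))), ?_, ?_, ?_,
    ?_, ?_, ?_⟩
  · intro m hm
    have h1 := Real.neg_one_le_cos (m * (2 * Real.pi * ψ))
    have h2 := hw m hm
    have h3 : 0 ≤ 1 + Real.cos (m * (2 * Real.pi * ψ)) := by linarith
    positivity
  · refine (Finset.sum_le_sum hc4).trans ?_
    rw [← Finset.mul_sum, KF_one hM]
    linarith
  · have h1 : ∀ m ∈ Finset.Icc 1 M, 2 * (1 - (m : ℝ) / M) *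
        (1 + Real.cos (m * (2 * Real.pi * ψ))) * (m : ℝ) ^ 2 ≤
        4 * ((1 - (m : ℝ) / M) * (m : ℝ) ^ 2) := fun m hm => by
      have h2 := mul_le_mul_of_nonneg_right (hc4 m hm) (by positivity : (0 : ℝ) ≤ (m : ℝ) ^ 2)
      linarith
    refine (Finset.sum_le_sum h1).trans ?_
    rw [← Finset.mul_sum, KF_two hM]
    linarith
  · intro θ
    have h1 := KF_hasSum M ψ θ
    have h2 := hasSum_zeta_two.mul_right (-2)
    have h3 := hasSum_le (fun k => ?_) h2 h1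
    · have h4 : Real.pi ^ 2 * (-(1 / 3)) ≤ Real.pi ^ 2 * ∑ m ∈ Finset.Icc 1 M,
          2 * (1 - (m : ℝ) / M) * (1 + Real.cos (m * (2 * Real.pi * ψ))) * B2 (m * θ) := by
        linarith
      exact le_of_mul_le_mul_left h4 hpi
    · refine mul_le_mul_of_nonneg_left ?_ (by positivity)
      have h5 := KF_FFge hM (k * θ)
      have h6 := KF_FFge hM (k * θ + ψ)
      have h7 := KF_FFge hM (k * θ - ψ)
      linarith
  · have h1 := KF_hasSum M ψ ψ
    have h2 := (hasSum_zeta_two.mul_right (-2)).add (hasSum_ite_eq 1 ((M : ℝ) / 2))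
    have h3 := hasSum_le (fun k => ?_) h2 h1
    · have h4 : Real.pi ^ 2 * (M / (2 * Real.pi ^ 2) - 1 / 3) ≤
          Real.pi ^ 2 * ∑ m ∈ Finset.Icc 1 M,
          2 * (1 - (m : ℝ) / M) * (1 + Real.cos (m * (2 * Real.pi * ψ))) * B2 (m * ψ) := by
        have h5 : Real.pi ^ 2 * (M / (2 * Real.pi ^ 2) - 1 / 3) =
            Real.pi ^ 2 / 6 * -2 + (M : ℝ) / 2 := by
          field_simp
          ring
        rw [h5]
        exact h3
      exact le_of_mul_le_mul_left h4 hpi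
    · have h5 := KF_FFge hM (k * ψ)
      have h6 := KF_FFge hM (k * ψ + ψ)
      have h7 := KF_FFge hM (k * ψ - ψ)
      by_cases hk : k = 1
      · subst hk
        have h8 := KF_FFzero hM
        have h9 : ((1 : ℕ) : ℝ) * ψ - ψ = 0 := by push_cast; ring
        rw [h9] at h7 ⊢
        rw [h8]
        simp only [if_true]
        norm_num
        norm_num at h5 h6
        linarith
      · rw [if_neg hk, add_zero]
        refine mul_le_mul_of_nonneg_left ?_ (by positivity)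
        linarith
  · have h1 : ∑ m ∈ Finset.Icc 1 M, 2 * (1 - (m : ℝ) / M) *
        (1 + Real.cos (m * (2 * Real.pi * ψ))) =
        2 * ∑ m ∈ Finset.Icc 1 M, (1 - (m : ℝ) / M) + KF_FF M ψ := by
      rw [KF_FF, Finset.mul_sum, ← Finset.sum_add_distrib]
      exact Finset.sum_congr rfl fun m _ => by ring
    have h2 := KF_FFge hM ψ
    rw [h1, KF_one hM]
    linarith

end Pool.Agent.Helper86.LK
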