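import Pool.Agent.Helper86.LK.Six
import Pool.Agent.Helper86.LH.Last

/-!
The final statement, relative heights.
-/

open Height AdmissibleAbsValues Filter Topology

namespace Pool.Agent.Helper86.LK

open WeierstrassCurve WeierstrassCurve.Affine WeierstrassCurve.Affine.Point NumberField
open Pool.Agent.Helper86.LH

variable {K : Type*} [Field K] [NumberField K] [DecidableEq K]
  (W : WeierstrassCurve.Affine K) [W.IsElliptic]

omit [DecidableEq K] in
theorem hj_eq : logHeight₁ W.j = hinf W + hfin W := by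
  rw [NumberField.logHeight₁_eq, hinf, asum_eq]
  rfl

theorem last_rel {δ : ℝ} (hδ0 : 0 < δ) (hδ1 : δ ≤ 1) (P : W.Point)
    (hP : ∀ n : ℕ, 0 < n → n • P ≠ 0) {H : W.Point → ℝ}
    (hH : ∀ P : W.Point, Tendsto (fun k : ℕ => logHeight ((2 ^ k • P).xRep) / 4 ^ k)
        atTop (𝓝 (H P))) (hHm : ∀ (P : W.Point) (m : ℕ), H (m • P) = m ^ 2 * H P)
    (hH0 : ∀ P : W.Point, 0 ≤ H P)
    (hw : (∃ w : InfinitePlace K, δ * logHeight₁ W.j ≤ w.mult * Real.posLog (w W.j)) ∨
      (∃ w : FinitePlace K, δ * logHeight₁ W.j ≤ Real.posLog (w W.j)) ∨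
      hfin W + δ * logHeight₁ W.j + 44 * totalWeight K ≤ dmin W) :
    δ ^ 3 * (dmin W + hinf W) / 450000 - 151 * (4 : ℝ) ^ (180 / δ) * totalWeight K ≤ H P := by
  classical
  have hΔ : W.Δ ≠ 0 := W.isUnit_Δ.ne_zero
  have h6 : (6 : K) ≠ 0 := by norm_num
  obtain ⟨S, hS⟩ := exists_big (W := W) hΔ h6
  have hd := dmin_le W hS
  have hJ := hj_eq W
  have key : δ ^ 3 * (logHeight₁ W.j + addH W) / 450000 -
      150 * (4 : ℝ) ^ (180 / δ) * totalWeight K ≤ H P := by
    refine all_main2 W hδ0 hδ1 hS P hP hH hHm hH0 ?_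
    rcases hw with ⟨w, hw⟩ | ⟨w, hw⟩ | hw
    · have hwv : w W.j = w.val W.j := rfl
      by_cases hm : IsAM W w.val
      · refine Or.inl ⟨Sum.inl w, Finset.inl_mem_disjSum.mpr (Finset.mem_univ _), ?_⟩
        unfold TT
        dsimp only
        rw [if_pos hm, nj_eq]
        rw [hwv, Real.posLog_eq_log_max_one (w.val.nonneg _),
          max_eq_right ((isMul_iff W w.val).mp hm.mul).le] at hw
        exact hw
      · refine Or.inr (Or.inl ?_)
        have h1 := not_isAM hΔ hm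
        have h2 : Real.posLog (w W.j) ≤ 47 := by
          rw [hwv, ← max_j W w.val]
          have h3 : Real.log (max 1 (w.val W.c₄ ^ 3 / w.val W.Δ)) ≤ 20 * Real.log 10 := by
            have e : 20 * Real.log 10 = Real.log (10 ^ 20) := by
              rw [Real.log_pow]; norm_num
            rw [e]
            apply Real.log_le_log (lt_of_lt_of_le one_pos (le_max_left _ _))
            exact max_le (by norm_num) h1
          have := log_ten_lt
          linarith
        have h3 : (w.mult : ℝ) ≤ 2 := by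
          unfold InfinitePlace.mult
          split_ifs <;> norm_num
        have h4 : (w.mult : ℝ) * Real.posLog (w W.j) ≤ 94 := by
          have h5 : 0 ≤ Real.posLog (w W.j) := Real.posLog_nonneg
          nlinarith
        exact hw.trans h4
    · have hwv : w W.j = w.val W.j := rfl
      by_cases hm : IsMul W w.val
      · have hwS : (⟨w.val, w.2⟩ : NV K) ∈ S := by
          by_contra hc
          exact hS.not_mul hc hm
        refine Or.inl ⟨Sum.inr ⟨w.val, w.2⟩, Finset.inr_mem_disjSum.mpr hwS, ?_⟩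
        unfold TT
        dsimp only
        rw [if_pos hm, nj_eq]
        rw [hwv, Real.posLog_eq_log_max_one (w.val.nonneg _),
          max_eq_right ((isMul_iff W w.val).mp hm).le] at hw
        exact hw
      · refine Or.inr (Or.inl ?_)
        rw [hwv, posLog_of_not hm] at hw
        linarith
    · refine Or.inr (Or.inr ?_)
      linarith
  have h5 : (1 : ℝ) ≤ totalWeight K := by
    exact_mod_cast NumberField.totalWeight_pos K
  have hd3 : δ ^ 3 ≤ 1 := pow_le_one₀ hδ0.le hδ1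
  have hd3' : 0 < δ ^ 3 := by positivity
  have a1 : δ ^ 3 * (dmin W + hinf W) ≤ δ ^ 3 * (logHeight₁ W.j + addH W) +
      44 * totalWeight K := by
    have b1 : dmin W + hinf W ≤ (logHeight₁ W.j + addH W) + 44 * totalWeight K := by linarith
    have b2 := mul_le_mul_of_nonneg_left b1 hd3'.le
    have b3 : δ ^ 3 * (44 * (totalWeight K : ℝ)) ≤ 1 * (44 * totalWeight K) :=
      mul_le_mul_of_nonneg_right hd3 (by positivity)
    linarith
  have a4 : (1 : ℝ) ≤ (4 : ℝ) ^ (180 / δ) := by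
    apply Real.one_le_rpow (by norm_num)
    positivity
  have a5 : (totalWeight K : ℝ) ≤ (4 : ℝ) ^ (180 / δ) * totalWeight K := by nlinarith
  have a6 : 151 * (4 : ℝ) ^ (180 / δ) * totalWeight K =
      150 * (4 : ℝ) ^ (180 / δ) * totalWeight K + (4 : ℝ) ^ (180 / δ) * totalWeight K := by ring
  rw [a6]
  linarith

section c4

variable {K : Type*} [Field K]

theorem c4_le_one {v : AbsoluteValue K ℝ} (hv : IsNonarchimedean v) {W : WeierstrassCurve K}
    (h : IsIntegralAt v W) : v W.c₄ ≤ 1 := by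
  obtain ⟨h1, h2, h3, h4, h6⟩ := h
  have hn : ∀ n : ℕ, v (n : K) ≤ 1 := fun n => IsNonarchimedean.apply_natCast_le_one hv
  have ha : ∀ x y : K, v x ≤ 1 → v y ≤ 1 → v (x + y) ≤ 1 := fun x y hx hy =>
    (hv x y).trans (max_le hx hy)
  have hs : ∀ x y : K, v x ≤ 1 → v y ≤ 1 → v (x - y) ≤ 1 := fun x y hx hy => by
    rw [sub_eq_add_neg]
    exact ha _ _ hx (by rwa [map_neg_eq_map])
  have hm : ∀ x y : K, v x ≤ 1 → v y ≤ 1 → v (x * y) ≤ 1 := fun x y hx hy => by
    rw [map_mul]
    exact mul_le_one₀ hx (v.nonneg _) hy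
  have hp : ∀ (x : K) (n : ℕ), v x ≤ 1 → v (x ^ n) ≤ 1 := fun x n hx => by
    rw [map_pow]
    exact pow_le_one₀ (v.nonneg _) hx
  have n2 : v (2 : K) ≤ 1 := by simpa using hn 2
  have n4 : v (4 : K) ≤ 1 := by simpa using hn 4
  have n24 : v (24 : K) ≤ 1 := by simpa using hn 24
  have b2 : v W.b₂ ≤ 1 := by
    rw [WeierstrassCurve.b₂]
    exact ha _ _ (hp _ _ h1) (hm _ _ n4 h2)
  have b4 : v W.b₄ ≤ 1 := by
    rw [WeierstrassCurve.b₄]
    exact ha _ _ (hm _ _ n2 h4) (hm _ _ h1 h3)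
  rw [WeierstrassCurve.c₄]
  exact hs _ _ (hp _ _ b2) (hm _ _ n24 b4)

end c4

section le

variable {K : Type*} [Field K] (W : WeierstrassCurve.Affine K) [W.IsElliptic]

theorem exists_scale_big (v : AbsoluteValue K ℝ) (a b : K) :
    ∃ u : Kˣ, v a ≤ v u ^ 4 ∧ v b ≤ v u ^ 6 := by
  by_cases h1 : v a ≤ 1 ∧ v b ≤ 1
  · refine ⟨1, ?_, ?_⟩ <;> rw [Units.val_one, map_one, one_pow]
    · exact h1.1
    · exact h1.2
  · obtain ⟨c, hc1, ha, hb⟩ : ∃ c : K, 1 < v c ∧ v a ≤ v c ∧ v b ≤ v c := by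
      rcases le_total (v a) (v b) with h | h
      · refine ⟨b, ?_, h, le_rfl⟩
        by_contra hc
        exact h1 ⟨h.trans (not_lt.mp hc), not_lt.mp hc⟩
      · refine ⟨a, ?_, le_rfl, h⟩
        by_contra hc
        exact h1 ⟨not_lt.mp hc, h.trans (not_lt.mp hc)⟩
    have hc0 : c ≠ 0 := by
      rintro rfl
      rw [v.map_zero] at hc1
      norm_num at hc1
    refine ⟨Units.mk0 c hc0, ?_, ?_⟩ <;> rw [Units.val_mk0]
    · exact ha.trans (le_self_pow₀ hc1.le (by norm_num))
    · exact hb.trans (le_self_pow₀ hc1.le (by norm_num))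

/-- The minimal discriminant dominates `j`. -/
theorem posLog_le_min {v : AbsoluteValue K ℝ} (hna : IsNonarchimedean v) (h6 : (6 : K) ≠ 0) :
    Real.posLog (v W.j) ≤ logMinDisc v W := by
  have hΔ : W.Δ ≠ 0 := W.isUnit_Δ.ne_zero
  rw [Real.posLog]
  refine max_le ?_ ?_
  · rw [logMinDisc, Left.nonneg_neg_iff]
    apply Real.log_nonpos
    · apply Real.sSup_nonneg
      rintro t ⟨C, _, rfl⟩
      exact v.nonneg _
    · apply Real.sSup_le _ zero_le_one
      rintro t ⟨C, hC, rfl⟩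
      exact disc_le_one hna hC
  · rcases eq_or_ne W.j 0 with hj | hj
    · rw [hj, v.map_zero, Real.log_zero, logMinDisc, Left.nonneg_neg_iff]
      apply Real.log_nonpos
      · apply Real.sSup_nonneg
        rintro t ⟨C, _, rfl⟩
        exact v.nonneg _
      · apply Real.sSup_le _ zero_le_one
        rintro t ⟨C, hC, rfl⟩
        exact disc_le_one hna hC
    have hj0 : 0 < v W.j := v.pos hj
    obtain ⟨u, k1, k2⟩ := exists_scale_big v (-W.c₄ / 48) (-W.c₆ / 864)
    obtain ⟨C, c1, c2, c3, c4, c6, cΔ⟩ := exists_model h6 W v u k1 k2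
    have hu0 : (0 : ℝ) < v (u : K) := v.pos u.ne_zero
    have ht : v W.Δ / v (u : K) ^ 12 ∈ discSet v W := ⟨C, ⟨c1, c2, c3, c4, c6⟩, cΔ.symm⟩
    have ht0 : 0 < v W.Δ / v (u : K) ^ 12 := div_pos (v.pos hΔ) (pow_pos hu0 12)
    have hb : BddAbove (discSet v W) := by
      refine ⟨1, ?_⟩
      rintro s ⟨C, hC, rfl⟩
      exact disc_le_one hna hC
    have hs0 : 0 < sSup (discSet v W) := lt_of_lt_of_le ht0 (le_csSup hb ht)
    have hs1 : sSup (discSet v W) ≤ (v W.j)⁻¹ := by
      apply Real.sSup_le _ (inv_pos.mpr hj0).le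
      rintro t ⟨C, hC, rfl⟩
      have e1 : (C • W).j = W.j := W.variableChange_j C
      have e2 : (C • W).j = (C • W).c₄ ^ 3 / (C • W).Δ := j_eq (W := (C • W : WeierstrassCurve K))
      have hΔ' : (C • W).Δ ≠ 0 := (C • W).isUnit_Δ.ne_zero
      have e3 : v W.j * v (C • W).Δ = v (C • W).c₄ ^ 3 := by
        rw [← e1, e2, ← map_mul, div_mul_cancel₀ _ hΔ', map_pow]
      have e4 : v (C • W).c₄ ≤ 1 := c4_le_one hna hC
      have e5 : v W.j * v (C • W).Δ ≤ 1 := by
        rw [e3]; exact pow_le_one₀ (v.nonneg _) e4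
      rw [le_inv_comm₀ (v.pos hΔ') hj0]
      rw [← one_div, le_div_iff₀ (v.pos hΔ')]
      exact e5
    rw [logMinDisc]
    have := Real.log_le_log hs0 hs1
    rw [Real.log_inv] at this
    linarith

end le

end Pool.Agent.Helper86.LK
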