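import Pool.Agent.Helper86.LK.Fin

/-!
The minimal discriminant at all finite places, also those above 6.
-/

open Height AdmissibleAbsValues Filter Topology

namespace Pool.Agent.Helper86.LK

open WeierstrassCurve WeierstrassCurve.Affine WeierstrassCurve.Affine.Point NumberField
open Pool.Agent.Helper86.LH

section six

variable {K : Type*} [Field K]

theorem zpow_unbdd {s : ℝ} (h0 : 0 < s) (h1 : s < 1) (c : ℝ) : ∃ n : ℕ, c < s ^ (-(n : ℤ)) := by
  obtain ⟨n, hn⟩ := pow_unbounded_of_one_lt c (one_lt_inv₀ h0 |>.mpr h1)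
  refine ⟨n, ?_⟩
  rw [zpow_neg, zpow_natCast, ← inv_pow]
  exact hn

theorem scale_six {s a b : ℝ} (h0 : 0 < s) (h1 : s < 1) (hab : 0 < a ∨ 0 < b) :
    ∃ k : ℤ, a ≤ s ^ (4 * k) ∧ b ≤ s ^ (6 * k) ∧
      (s ^ (4 * (k + 1)) < a ∨ s ^ (6 * (k + 1)) < b) := by
  have mono : ∀ {i j : ℤ}, i ≤ j → s ^ j ≤ s ^ i := fun h => zpow_le_zpow_right_of_le_one₀ h0 h1.le h
  have hbdd : ∃ c : ℤ, ∀ z : ℤ, (a ≤ s ^ (4 * z) ∧ b ≤ s ^ (6 * z)) → z ≤ c := by
    have aux : ∀ t : ℝ, 0 < t → ∃ n : ℕ, s ^ (n : ℤ) < t := by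
      intro t ht
      obtain ⟨n, hn⟩ := exists_pow_lt_of_lt_one ht h1
      exact ⟨n, by rw [zpow_natCast]; exact hn⟩
    rcases hab with h | h
    · obtain ⟨n, hn⟩ := aux a h
      refine ⟨n, fun z hz => ?_⟩
      by_contra hc
      rw [not_le] at hc
      have := mono (show (n : ℤ) ≤ 4 * z by omega)
      linarith [hz.1]
    · obtain ⟨n, hn⟩ := aux b h
      refine ⟨n, fun z hz => ?_⟩
      by_contra hc
      rw [not_le] at hc
      have := mono (show (n : ℤ) ≤ 6 * z by omega)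
      linarith [hz.2]
  have hinh : ∃ z : ℤ, a ≤ s ^ (4 * z) ∧ b ≤ s ^ (6 * z) := by
    obtain ⟨m, hm⟩ := zpow_unbdd h0 h1 a
    obtain ⟨n, hn⟩ := zpow_unbdd h0 h1 b
    refine ⟨-(m + n), ?_, ?_⟩
    · have := mono (show 4 * (-((m : ℤ) + n)) ≤ -(m : ℤ) by omega)
      linarith
    · have := mono (show 6 * (-((m : ℤ) + n)) ≤ -(n : ℤ) by omega)
      linarith
  obtain ⟨k, hk, hmax⟩ := Int.exists_greatest_of_bdd hbdd hinh
  refine ⟨k, hk.1, hk.2, ?_⟩
  by_contra hc
  rw [not_or, not_lt, not_lt] at hc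
  have := hmax (k + 1) hc
  omega

variable (W : WeierstrassCurve.Affine K) [W.IsElliptic]

/-- Places above 6. -/
theorem min_six {v : AbsoluteValue K ℝ} (hna : IsNonarchimedean v) (h6 : (6 : K) ≠ 0)
    (h : v 6 < 1) : logMinDisc v W ≤ Real.posLog (v W.j) - 24 * Real.log (v 6) := by
  have hΔ : W.Δ ≠ 0 := W.isUnit_Δ.ne_zero
  have hn : ∀ n : ℕ, v (n : K) ≤ 1 := fun n => IsNonarchimedean.apply_natCast_le_one hna
  have h2 : (2 : K) ≠ 0 := fun h0 => h6 (by rw [show (6 : K) = 2 * 3 by norm_num, h0, zero_mul])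
  have h3 : (3 : K) ≠ 0 := fun h0 => h6 (by rw [show (6 : K) = 2 * 3 by norm_num, h0, mul_zero])
  have p2 : 0 < v 2 := v.pos h2
  have p3 : 0 < v 3 := v.pos h3
  have n2 : v (2 : K) ≤ 1 := by simpa using hn 2
  have n3 : v (3 : K) ≤ 1 := by simpa using hn 3
  have v6 : v 6 = v 2 * v 3 := by rw [show (6 : K) = 2 * 3 by norm_num, map_mul]
  have v48 : v 48 = v 2 ^ 4 * v 3 := by
    rw [show (48 : K) = 2 ^ 4 * 3 by norm_num, map_mul, map_pow]
  have v864 : v 864 = v 2 ^ 5 * v 3 ^ 3 := by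
    rw [show (864 : K) = 2 ^ 5 * 3 ^ 3 by norm_num, map_mul, map_pow, map_pow]
  have h48 : (48 : K) ≠ 0 := by
    rw [show (48 : K) = 2 ^ 4 * 3 by norm_num]; exact mul_ne_zero (pow_ne_zero _ h2) h3
  have h864 : (864 : K) ≠ 0 := by
    rw [show (864 : K) = 2 ^ 5 * 3 ^ 3 by norm_num]
    exact mul_ne_zero (pow_ne_zero _ h2) (pow_ne_zero _ h3)
  set s := v 6 with hs
  have s0 : 0 < s := v.pos h6
  set A : K := -W.c₄ / 48 with hAdef
  set B : K := -W.c₆ / 864 with hBdef
  have vA : v A = v W.c₄ / v 48 := by rw [hAdef, map_div₀, map_neg_eq_map]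
  have vB : v B = v W.c₆ / v 864 := by rw [hBdef, map_div₀, map_neg_eq_map]
  have hdisc : 16 * (4 * A ^ 3 + 27 * B ^ 2) = -W.Δ := sh_disc W h6
  have hAB : A ≠ 0 ∨ B ≠ 0 := by
    by_contra hc
    rw [not_or, not_not, not_not] at hc
    rw [hc.1, hc.2] at hdisc
    apply hΔ
    have : -W.Δ = 0 := by rw [← hdisc]; ring
    exact neg_eq_zero.mp this
  obtain ⟨k, k1, k2, k3⟩ := scale_six s0 h
    (hAB.imp (fun h => v.pos h) (fun h => v.pos h))
  set u : Kˣ := (Units.mk0 (6 : K) h6) ^ k with hu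
  have vu : v u = s ^ k := by
    rw [hu, Units.val_zpow_eq_zpow_val, map_zpow₀, Units.val_mk0]
  have hu0 : (0 : ℝ) < v u := by rw [vu]; exact zpow_pos s0 k
  have u4 : v (u : K) ^ 4 = s ^ (4 * k) := by
    rw [vu, ← zpow_natCast, ← zpow_mul, mul_comm]
    rfl
  have u6 : v (u : K) ^ 6 = s ^ (6 * k) := by
    rw [vu, ← zpow_natCast, ← zpow_mul, mul_comm]
    rfl
  obtain ⟨C, c1, c2, c3, c4, c6, cΔ⟩ := exists_model h6 W v u (by rw [u4]; exact k1)
    (by rw [u6]; exact k2)
  have ht : v W.Δ / v (u : K) ^ 12 ∈ discSet v W := ⟨C, ⟨c1, c2, c3, c4, c6⟩, cΔ.symm⟩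
  have ht0 : 0 < v W.Δ / v (u : K) ^ 12 := div_pos (v.pos hΔ) (pow_pos hu0 12)
  have hmin := logMinDisc_le hna ht ht0
  rw [Real.log_div (v.pos hΔ).ne' (pow_pos hu0 12).ne', Real.log_pow] at hmin
  push_cast at hmin
  -- `max (|Δ|, |c₄|³) ≥ |6|^24 |u|^12`
  have key : s ^ 24 * v (u : K) ^ 12 ≤ max (v W.Δ) (v W.c₄ ^ 3) := by
    have w0 := hu0.le
    rcases k3 with e | e
    · have e1 : s ^ (4 * (k + 1)) = v (u : K) ^ 4 * s ^ 4 := by
        rw [u4, mul_add, zpow_add₀ s0.ne']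
        norm_cast
      rw [e1, vA, lt_div_iff₀ (v.pos h48), v48] at e
      have e2 : v (u : K) ^ 4 * s ^ 8 ≤ v W.c₄ := by
        refine le_trans ?_ e.le
        have e3 : s ^ 4 ≤ v 2 ^ 4 * v 3 := by
          rw [v6, mul_pow]
          apply mul_le_mul_of_nonneg_left _ (pow_nonneg p2.le 4)
          exact pow_le_of_le_one p3.le n3 (by norm_num)
        calc v (u : K) ^ 4 * s ^ 8 = v (u : K) ^ 4 * s ^ 4 * s ^ 4 := by ring
          _ ≤ _ := mul_le_mul_of_nonneg_left e3 (by positivity)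
      calc s ^ 24 * v (u : K) ^ 12 = (v (u : K) ^ 4 * s ^ 8) ^ 3 := by ring
        _ ≤ v W.c₄ ^ 3 := pow_le_pow_left₀ (by positivity) e2 3
        _ ≤ _ := le_max_right _ _
    · have e1 : s ^ (6 * (k + 1)) = v (u : K) ^ 6 * s ^ 6 := by
        rw [u6, mul_add, zpow_add₀ s0.ne']
        norm_cast
      rw [e1, vB, lt_div_iff₀ (v.pos h864), v864] at e
      have e2 : v (u : K) ^ 6 * s ^ 12 ≤ v W.c₆ := by
        refine le_trans ?_ e.le
        have e3 : s ^ 6 ≤ v 2 ^ 5 * v 3 ^ 3 := by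
          rw [v6, mul_pow]
          apply mul_le_mul (pow_le_pow_of_le_one p2.le n2 (by norm_num))
            (pow_le_pow_of_le_one p3.le n3 (by norm_num)) (pow_nonneg p3.le 6)
            (pow_nonneg p2.le 5)
        calc v (u : K) ^ 6 * s ^ 12 = v (u : K) ^ 6 * s ^ 6 * s ^ 6 := by ring
          _ ≤ _ := mul_le_mul_of_nonneg_left e3 (by positivity)
      have e4 : v W.c₆ ^ 2 ≤ max (v W.Δ) (v W.c₄ ^ 3) := by
        have e5 : W.c₆ ^ 2 = W.c₄ ^ 3 + -(1728 * W.Δ) := by
          have := W.c_relation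
          linear_combination this
        have v1728 : v 1728 ≤ 1 := by simpa using hn 1728
        have e6 : v (W.c₆ ^ 2) ≤ max (v (W.c₄ ^ 3)) (v (-(1728 * W.Δ))) := by
          rw [e5]; exact hna _ _
        rw [map_pow, map_pow, map_neg_eq_map, map_mul] at e6
        refine e6.trans (max_le (le_max_right _ _) ?_)
        refine le_trans ?_ (le_max_left _ _)
        have := v.nonneg W.Δ
        nlinarith
      calc s ^ 24 * v (u : K) ^ 12 = (v (u : K) ^ 6 * s ^ 12) ^ 2 := by ring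
        _ ≤ v W.c₆ ^ 2 := pow_le_pow_left₀ (by positivity) e2 2
        _ ≤ _ := e4
  have hj : Real.posLog (v W.j) = Real.log (max (v W.Δ) (v W.c₄ ^ 3)) - Real.log (v W.Δ) := by
    rw [Real.posLog_eq_log_max_one (v.nonneg _), j_eq, map_div₀, map_pow]
    have e : max 1 (v W.c₄ ^ 3 / v W.Δ) = max (v W.Δ) (v W.c₄ ^ 3) / v W.Δ := by
      rw [← max_div_div_right (v.pos hΔ).le, div_self (v.pos hΔ).ne']
    rw [e, Real.log_div (lt_of_lt_of_le (v.pos hΔ) (le_max_left _ _)).ne' (v.pos hΔ).ne']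
  have hk := Real.log_le_log (by positivity) key
  rw [Real.log_mul (pow_pos s0 24).ne' (pow_pos hu0 12).ne', Real.log_pow, Real.log_pow] at hk
  push_cast at hk
  rw [hj]
  linarith

end six

variable {K : Type*} [Field K] [NumberField K] [DecidableEq K]
  (W : WeierstrassCurve.Affine K) [W.IsElliptic]

omit [NumberField K] [DecidableEq K] in
theorem logMinDisc_nonneg {v : AbsoluteValue K ℝ} (hna : IsNonarchimedean v) :
    0 ≤ logMinDisc v W := by
  rw [logMinDisc, Left.nonneg_neg_iff]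
  apply Real.log_nonpos
  · apply Real.sSup_nonneg
    rintro t ⟨C, _, rfl⟩
    exact v.nonneg _
  · apply Real.sSup_le _ zero_le_one
    rintro t ⟨C, hC, rfl⟩
    exact disc_le_one hna hC

omit [DecidableEq K] in
theorem min_place (v : NV K) :
    logMinDisc v.val W ≤ Real.posLog (v.val W.j) + ga W v.val - 24 * Real.log (v.val 6) := by
  have hna := isNonarchimedean v.val v.2
  have h6 : (6 : K) ≠ 0 := by norm_num
  have hle : v.val 6 ≤ 1 := by
    have h6' : v.val ((6 : ℕ) : K) ≤ 1 := IsNonarchimedean.apply_natCast_le_one hna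
    simpa using h6'
  rcases hle.lt_or_eq with h | h
  · have := min_six W hna h6 h
    have := ga_nonneg W v.val
    linarith
  · rw [h, Real.log_one, ga, if_pos h, gn]
    have := le_max_right 0 (logMinDisc v.val W - Real.posLog (v.val W.j))
    linarith

omit [DecidableEq K] in
theorem min_out {S : Finset (NV K)} (hS : Big W S) {v : NV K} (hv : v ∉ S) :
    logMinDisc v.val W = 0 := by
  have h1 := min_place W v
  rw [ga_out W hS hv, hS.six v hv, Real.log_one, posLog_of_not (hS.not_mul hv)] at h1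
  have := logMinDisc_nonneg W (isNonarchimedean v.val v.2)
  linarith

/-- The finite part of the height of the curve: logarithm of the norm of the minimal
discriminant. -/
noncomputable def dmin : ℝ := ∑ᶠ v : NV K, logMinDisc v.val W

omit [DecidableEq K] in
theorem dmin_eq {S : Finset (NV K)} (hS : Big W S) :
    dmin W = ∑ v ∈ S, logMinDisc v.val W := by
  unfold dmin
  apply finsum_eq_sum_of_support_subset
  intro v hv
  by_contra hc
  apply hv
  exact min_out W hS (fun h => hc (Finset.mem_coe.mpr h))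

omit [DecidableEq K] in
theorem dmin_le {S : Finset (NV K)} (hS : Big W S) :
    dmin W ≤ hfin W + addH W + 44 * totalWeight K := by
  classical
  have h6 : (6 : K) ≠ 0 := by norm_num
  have hp := log_prod_formula h6 S (fun v hv => hS.six v hv)
  have hA : asum K (fun v => Real.log (v 6)) = totalWeight K * Real.log 6 := by
    rw [← asum_const]
    apply asum_congr
    intro v hv
    have h1 := arch_two_three v hv
    rw [show (6 : K) = 2 * 3 by norm_num, map_mul, h1.1, h1.2]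
    norm_num
  have h1 : dmin W ≤ ∑ v ∈ S, (Real.posLog (v.val W.j) + ga W v.val -
      24 * Real.log (v.val 6)) := by
    rw [dmin_eq W hS]
    exact Finset.sum_le_sum fun v _ => min_place W v
  rw [Finset.sum_sub_distrib, Finset.sum_add_distrib, ← Finset.mul_sum, ← addH_eq W hS] at h1
  have h2 : hfin W = ∑ v ∈ S, Real.posLog (v.val W.j) := by
    unfold hfin
    apply finsum_eq_sum_of_support_subset
    intro v hv
    by_contra hc
    apply hv
    exact posLog_of_not (hS.not_mul (fun h => hc (Finset.mem_coe.mpr h)))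
  rw [← h2] at h1
  have hl6 : Real.log 6 ≤ 1.8 := by
    rw [Real.log_le_iff_le_exp (by norm_num)]
    have e1 : (2.7182818283 : ℝ) < Real.exp 1 := Real.exp_one_gt_d9
    have e2 : Real.exp 1.8 = Real.exp 1 ^ 1 * Real.exp 0.8 := by
      rw [pow_one, ← Real.exp_add]; norm_num
    have e3 : (2.224 : ℝ) ≤ Real.exp 0.8 := by
      have := Real.sum_le_exp_of_nonneg (show (0 : ℝ) ≤ 0.8 by norm_num) 6
      refine le_trans ?_ this
      norm_num [Finset.sum_range_succ, Nat.factorial]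
    rw [e2, pow_one]
    nlinarith
  have hd : (0 : ℝ) ≤ totalWeight K := Nat.cast_nonneg _
  have h3 := mul_le_mul_of_nonneg_left hl6 hd
  unfold asum at hA
  linarith

end Pool.Agent.Helper86.LK
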