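import Pool.Agent.Helper86.LK.Gain
import Pool.Agent.Helper86.LK.KF
import Pool.Agent.Helper86.LH.Last

/-!
The main inequality with the gains at the additive places.
-/

open Height AdmissibleAbsValues Filter Topology

namespace Pool.Agent.Helper86.LK

open WeierstrassCurve WeierstrassCurve.Affine WeierstrassCurve.Affine.Point NumberField
open Pool.Agent.Helper86.LH

section general

variable {K : Type*} [Field K] [AdmissibleAbsValues K] {W : WeierstrassCurve.Affine K}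

open Classical in
/-- `Φ` of an affine point, with gains. -/
theorem APh_ge2 [W.IsElliptic] (hΔ : W.Δ ≠ 0) {S : Finset (NV K)} (hS : Big W S) (X : K)
    (g : NV K → ℝ) (hg : ∀ v ∈ S, 1 / 6 * Real.log (v.val W.Δ) +
      1 / 6 * Real.posLog (v.val W.j) + 1 / 6 * g v ≤ loc W v.val X 1) :
    1 / 6 * asum K (fun v => if IsAM W v then -Real.log (qv W v) else 0) +
    1 / 6 * ∑ v ∈ S, (if IsMul W v.val then -Real.log (qv W v.val) else 0) +
    1 / 6 * ∑ v ∈ S, g v ≤ APh W S X 1 := by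
  have h : X ≠ 0 ∨ (1 : K) ≠ 0 := Or.inr one_ne_zero
  have h0 := height_ge (X := X) S
  have hp := log_prod_formula hΔ S (fun v hv => hS.disc v hv)
  have hA : asum K (fun v => 1 / 6 * Real.log (v W.Δ) +
      1 / 6 * (if IsAM W v then -Real.log (qv W v) else 0)) ≤
      asum K (fun v => aloc W v X 1) := by
    apply asum_le
    intro v _
    unfold aloc
    split_ifs with hm
    · rw [log_lv hΔ hm.mul]
      exact locM_ge hm.mul X
    · rw [mul_zero, add_zero]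
      exact locA_ge hΔ v X
  have hB : ∑ v ∈ S, (1 / 6 * Real.log (v.val W.Δ) +
      1 / 6 * (if IsMul W v.val then -Real.log (qv W v.val) else 0) + 1 / 6 * g v) ≤
      ∑ v ∈ S, loc W v.val X 1 := by
    apply Finset.sum_le_sum
    intro v hv
    refine le_trans (le_of_eq ?_) (hg v hv)
    congr 2
    split_ifs with hm
    · rw [nj_eq_posLog hm]
    · rw [posLog_of_not hm]
  rw [asum_add, asum_mul, asum_mul] at hA
  rw [Finset.sum_add_distrib, Finset.sum_add_distrib, ← Finset.mul_sum, ← Finset.mul_sum,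
    ← Finset.mul_sum] at hB
  unfold APh
  rw [asum_sub, Finset.sum_sub_distrib]
  unfold asum at *
  linarith

open Classical in
/-- Lower bound for the canonical height of a nonzero point, with gains. -/
theorem aheight_lower2 [DecidableEq K] [W.IsElliptic] (h6 : (6 : K) ≠ 0)
    (harch : ∀ v ∈ (archAbsVal : Multiset (AbsoluteValue K ℝ)), v 2 = 2 ∧ v 3 = 3)
    {S : Finset (NV K)} (hS : Big W S) (P : W.Point) (hP : P ≠ 0) {H : ℝ}
    (hH : Tendsto (fun k : ℕ => logHeight ((2 ^ k • P).xRep) / 4 ^ k) atTop (𝓝 H))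
    (g : NV K → ℝ) (hg : ∀ v ∈ S, 1 / 6 * Real.log (v.val W.Δ) +
      1 / 6 * Real.posLog (v.val W.j) + 1 / 6 * g v ≤ loc W v.val (P.xRep 0) (P.xRep 1)) :
    asum K (fun v => if IsAM W v then
        nj W v * (1 / 6 - tv W v P * (1 - tv W v P)) else 0) +
    ∑ v ∈ S, (if IsMul W v.val then
        nj W v.val * (1 / 6 - tv W v.val P * (1 - tv W v.val P)) else 0) +
    1 / 6 * ∑ v ∈ S, g v - 65 * totalWeight K ≤ H := by
  have hΔ : W.Δ ≠ 0 := W.isUnit_Δ.ne_zero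
  have h1 := AWt_le_height h6 harch hS P hH
  have h2 := aconst_le h6 harch hS (W := W)
  have h3 : 1 / 6 * asum K (fun v => if IsAM W v then -Real.log (qv W v) else 0) +
      1 / 6 * ∑ v ∈ S, (if IsMul W v.val then -Real.log (qv W v.val) else 0) +
      1 / 6 * ∑ v ∈ S, g v ≤ APh W S (P.xRep 0) (P.xRep 1) := by
    match P, hP, hg with
    | Point.some x y hxy, _, hg =>
      exact APh_ge2 hΔ hS x g hg
    | 0, hP, _ => exact absurd rfl hP
  have h4 : ∑ v ∈ S, (if IsMul W v.val then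
        nj W v.val * (1 / 6 - tv W v.val P * (1 - tv W v.val P)) else 0) =
      1 / 6 * ∑ v ∈ S, (if IsMul W v.val then -Real.log (qv W v.val) else 0) -
      ∑ v ∈ S, (if IsMul W v.val then
        nj W v.val * (tv W v.val P * (1 - tv W v.val P)) else 0) := by
    rw [Finset.mul_sum, ← Finset.sum_sub_distrib]
    apply Finset.sum_congr rfl
    intro v _
    split_ifs with hm
    · rw [nj]; ring
    · ring
  have h5 : asum K (fun v => if IsAM W v then
        nj W v * (1 / 6 - tv W v P * (1 - tv W v P)) else 0) =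
      1 / 6 * asum K (fun v => if IsAM W v then -Real.log (qv W v) else 0) -
      asum K (fun v => qa W v P) := by
    rw [← asum_mul, ← asum_sub]
    apply asum_congr
    intro v _
    unfold qa
    split_ifs with hm
    · rw [nj]; ring
    · ring
  rw [h4, h5]
  unfold AWt at h1
  linarith

end general

/-- Weighted sum with gains. -/
theorem weighted2 {ι : Type*} (S : Finset ι) (T θ : ι → ℝ) (hT : ∀ v ∈ S, 0 ≤ T v)
    (I : Finset ι) (hI : I ⊆ S) (ψ : ℝ) (hψ : ∀ v ∈ I, θ v = ψ) (H E G : ℝ) (hH : 0 ≤ H)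
    (hE : 0 ≤ E) (hG : 0 ≤ G) (M : ℕ) (hM : 1 ≤ M)
    (h : ∀ m ∈ Finset.Icc 1 M, ∑ v ∈ S, T v * B2 (m * θ v) + G - E ≤ (m : ℝ) ^ 2 * H) :
    M / (2 * Real.pi ^ 2) * ∑ v ∈ I, T v - 1 / 3 * ∑ v ∈ S, T v + (M - 2) * G - 2 * M * E ≤
      H * (M : ℝ) ^ 3 / 3 := by
  classical
  obtain ⟨c, c0, c1, c2, c3, c4, c5⟩ := weights2 M hM ψ
  have e1 : ∑ m ∈ Finset.Icc 1 M, c m * (∑ v ∈ S, T v * B2 (m * θ v) + G - E) ≤
      ∑ m ∈ Finset.Icc 1 M, c m * ((m : ℝ) ^ 2 * H) :=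
    Finset.sum_le_sum fun m hm => mul_le_mul_of_nonneg_left (h m hm) (c0 m hm)
  have e2 : ∑ m ∈ Finset.Icc 1 M, c m * ((m : ℝ) ^ 2 * H) =
      (∑ m ∈ Finset.Icc 1 M, c m * (m : ℝ) ^ 2) * H := by
    rw [Finset.sum_mul]
    exact Finset.sum_congr rfl fun m _ => by ring
  have e3 : (∑ m ∈ Finset.Icc 1 M, c m * (m : ℝ) ^ 2) * H ≤ (M : ℝ) ^ 3 / 3 * H :=
    mul_le_mul_of_nonneg_right c2 hH
  have e4 : ∑ m ∈ Finset.Icc 1 M, c m * (∑ v ∈ S, T v * B2 (m * θ v) + G - E) =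
      ∑ v ∈ S, T v * (∑ m ∈ Finset.Icc 1 M, c m * B2 (m * θ v)) +
        G * ∑ m ∈ Finset.Icc 1 M, c m - E * ∑ m ∈ Finset.Icc 1 M, c m := by
    simp only [mul_sub, mul_add, Finset.sum_sub_distrib, Finset.sum_add_distrib, Finset.mul_sum]
    congr 1
    · congr 1
      · rw [Finset.sum_comm]
        refine Finset.sum_congr rfl fun v _ => Finset.sum_congr rfl fun m _ => by ring
      · exact Finset.sum_congr rfl fun m _ => by ring
    · exact Finset.sum_congr rfl fun m _ => by ring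
  have e5 : E * ∑ m ∈ Finset.Icc 1 M, c m ≤ E * (2 * M) := mul_le_mul_of_nonneg_left c1 hE
  have e5' : G * (M - 2) ≤ G * ∑ m ∈ Finset.Icc 1 M, c m := mul_le_mul_of_nonneg_left c5 hG
  have e6 : ∑ v ∈ S, (T v * (-(1 / 3)) + (if v ∈ I then T v * (M / (2 * Real.pi ^ 2)) else 0)) ≤
      ∑ v ∈ S, T v * (∑ m ∈ Finset.Icc 1 M, c m * B2 (m * θ v)) := by
    apply Finset.sum_le_sum
    intro v hv
    split_ifs with hvI
    · rw [hψ v hvI]
      have := mul_le_mul_of_nonneg_left c4 (hT v hv)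
      linarith
    · have := mul_le_mul_of_nonneg_left (c3 (θ v)) (hT v hv)
      linarith
  rw [Finset.sum_add_distrib, ← Finset.sum_mul, ← Finset.sum_filter] at e6
  have e7 : S.filter (fun v => v ∈ I) = I := by
    ext v
    simp only [Finset.mem_filter]
    exact ⟨fun h => h.2, fun h => ⟨hI h, h⟩⟩
  rw [e7, ← Finset.sum_mul] at e6
  rw [e4, e2] at e1
  have e8 : M / (2 * Real.pi ^ 2) * ∑ v ∈ I, T v = (∑ v ∈ I, T v) * (M / (2 * Real.pi ^ 2)) :=
    mul_comm _ _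
  rw [e8]
  linarith

/-- Choice of `M`, with gains: the last step. -/
theorem opt_core {δ T E H G : ℝ} (hδ0 : 0 < δ) (hδ1 : δ ≤ 1) (hT : 0 ≤ T)
    (hE : 0 ≤ E) (hG : 0 ≤ G) {M : ℕ} (hM1 : 14 / δ ≤ M)
    (hM2 : (M : ℝ) ≤ 15 / δ)
    (a2 : 11 / 30 * (T + G) - 2 * M * E ≤ 144 * H * (M : ℝ) ^ 3 / 3) :
    δ ^ 3 * (T + G) / 450000 - E ≤ H := by
  have hMpos : (0 : ℝ) < M := lt_of_lt_of_le (by positivity) hM1
  have hM14 : (14 : ℝ) ≤ M := by
    refine le_trans ?_ hM1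
    rw [le_div_iff₀ hδ0]
    linarith
  have a3 : (M : ℝ) ^ 3 ≤ 3375 / δ ^ 3 := by
    have := pow_le_pow_left₀ hMpos.le hM2 3
    rw [div_pow] at this
    norm_num at this
    exact this
  have a5 : δ ^ 3 * (M : ℝ) ^ 3 ≤ 3375 := by
    have := mul_le_mul_of_nonneg_left a3 (by positivity : 0 ≤ δ ^ 3)
    rwa [mul_div_cancel₀ _ (by positivity)] at this
  have hM3 : (0 : ℝ) < (M : ℝ) ^ 3 := by positivity
  have b1 : δ ^ 3 * (T + G) / 450000 * (M : ℝ) ^ 3 ≤ 3 / 400 * (T + G) := by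
    have := mul_le_mul_of_nonneg_right a5 (add_nonneg hT hG)
    nlinarith
  have b2 : 2 * M * E ≤ 48 * E * (M : ℝ) ^ 3 := by
    have c1 : (M : ℝ) ≤ (M : ℝ) ^ 3 := by
      nlinarith [mul_pos hMpos hMpos]
    have := mul_le_mul_of_nonneg_right c1 hE
    have c2 : 0 ≤ (M : ℝ) ^ 3 * E := by positivity
    linarith
  have b3 : (δ ^ 3 * (T + G) / 450000 - E) * (M : ℝ) ^ 3 ≤ H * (M : ℝ) ^ 3 := by
    rw [sub_mul]
    have c1 : 0 ≤ T + G := add_nonneg hT hG
    linarith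
  exact le_of_mul_le_mul_right b3 hM3

/-- A place carries the share. -/
theorem opt_place {δ T Tw E H G : ℝ} (hδ0 : 0 < δ) (hδ1 : δ ≤ 1) (hT : 0 ≤ T)
    (hw : δ * T ≤ Tw) (hE : 0 ≤ E) (hG : 0 ≤ G) {M : ℕ} (hM1 : 14 / δ ≤ M)
    (hM2 : (M : ℝ) ≤ 15 / δ)
    (h : M / (2 * Real.pi ^ 2) * Tw - 1 / 3 * T + (M - 2) * (1 / 6 * G) - 2 * M * E ≤
      144 * H * (M : ℝ) ^ 3 / 3) :
    δ ^ 3 * (T + G) / 450000 - E ≤ H := by
  have hM14 : (14 : ℝ) ≤ M := by
    refine le_trans ?_ hM1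
    rw [le_div_iff₀ hδ0]
    linarith
  have hpi : Real.pi ^ 2 < 9.87 := by
    have h1 := Real.pi_lt_d4
    have h2 := Real.pi_pos
    nlinarith
  have hpi0 : 0 < Real.pi ^ 2 := by positivity
  refine opt_core hδ0 hδ1 hT hE hG hM1 hM2 ?_
  have a1 : 0.7 * T ≤ M / (2 * Real.pi ^ 2) * Tw := by
    have b1 : M / (2 * Real.pi ^ 2) * (δ * T) ≤ M / (2 * Real.pi ^ 2) * Tw :=
      mul_le_mul_of_nonneg_left hw (by positivity)
    have b2 : 14 ≤ M * δ := by
      have := mul_le_mul_of_nonneg_right hM1 hδ0.le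
      rwa [div_mul_cancel₀ _ hδ0.ne'] at this
    have b3 : 0.7 ≤ M * δ / (2 * Real.pi ^ 2) := by
      rw [le_div_iff₀ (by positivity)]
      nlinarith
    have b4 : M / (2 * Real.pi ^ 2) * (δ * T) = M * δ / (2 * Real.pi ^ 2) * T := by ring
    rw [b4] at b1
    have b5 := mul_le_mul_of_nonneg_right b3 hT
    linarith
  have a1' : 11 / 30 * G ≤ (M - 2) * (1 / 6 * G) := by nlinarith
  norm_num at a1
  linarith

/-- The height of `j` is small in terms of `δ`. -/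
theorem opt_small {δ T E H G : ℝ} (hδ0 : 0 < δ) (hδ1 : δ ≤ 1) (hT : 0 ≤ T)
    (hw : δ * T ≤ 94) (hE : 0 ≤ E) (hG : 0 ≤ G) {M : ℕ} (hM1 : 14 / δ ≤ M)
    (hM2 : (M : ℝ) ≤ 15 / δ)
    (h : - (1 / 3 * T) + (M - 2) * (1 / 6 * G) - 2 * M * E ≤
      144 * H * (M : ℝ) ^ 3 / 3) :
    δ ^ 3 * (T + G) / 450000 - (E + 5) ≤ H := by
  have hM14 : (14 : ℝ) ≤ M := by
    refine le_trans ?_ hM1
    rw [le_div_iff₀ hδ0]
    linarith
  refine opt_core hδ0 hδ1 hT (by linarith) hG hM1 hM2 ?_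
  have a1 : 0.7 * T ≤ 10 * M := by
    have b2 : 14 ≤ M * δ := by
      have := mul_le_mul_of_nonneg_right hM1 hδ0.le
      rwa [div_mul_cancel₀ _ hδ0.ne'] at this
    have b5 : 14 * T ≤ M * δ * T := mul_le_mul_of_nonneg_right b2 hT
    have b6 : M * δ * T ≤ M * 94 := by
      rw [mul_assoc]
      exact mul_le_mul_of_nonneg_left hw (by linarith)
    linarith
  have a1' : 11 / 30 * G ≤ (M - 2) * (1 / 6 * G) := by nlinarith
  norm_num at a1
  linarith

/-- The additive part carries the share. -/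
theorem opt_add {δ T E H G : ℝ} (hδ0 : 0 < δ) (hδ1 : δ ≤ 1) (hT : 0 ≤ T)
    (hw : δ * T ≤ G) (hE : 0 ≤ E) (hG : 0 ≤ G) {M : ℕ} (hM1 : 14 / δ ≤ M)
    (hM2 : (M : ℝ) ≤ 15 / δ)
    (h : - (1 / 3 * T) + (M - 2) * (1 / 6 * G) - 2 * M * E ≤
      144 * H * (M : ℝ) ^ 3 / 3) :
    δ ^ 3 * (T + G) / 450000 - E ≤ H := by
  have hM14 : (14 : ℝ) ≤ M := by
    refine le_trans ?_ hM1
    rw [le_div_iff₀ hδ0]
    linarith
  refine opt_core hδ0 hδ1 hT hE hG hM1 hM2 ?_
  have b2 : 12 ≤ (M - 2) * δ := by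
    have := mul_le_mul_of_nonneg_right hM1 hδ0.le
    rw [div_mul_cancel₀ _ hδ0.ne'] at this
    linarith
  have b5 : 12 * T ≤ (M - 2) * δ * T := mul_le_mul_of_nonneg_right b2 hT
  have b6 : (M - 2) * (δ * T) ≤ (M - 2) * G := mul_le_mul_of_nonneg_left hw (by linarith)
  have b7 : 12 * G ≤ (M - 2) * G := by nlinarith
  linarith

end Pool.Agent.Helper86.LK
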